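import Pool.Agent.TH163.AC2.Core

/-!
# Choice of the parameters
-/

set_option autoImplicit false

namespace Pool.Agent.TH163.AC2

open Finset H568R2 Filter Topology

lemma ev_pow_exp (c : ℕ) {a b : ℝ} (ha : 1 / 2 ≤ a) (hb : 0 < b) :
    ∀ᶠ n : ℕ in atTop, 9 * (n : ℝ) ^ c * Real.exp (-(b * (n : ℝ) ^ a)) ≤ 1 := by
  have h1 : Tendsto (fun n : ℕ => b * (n : ℝ) ^ a) atTop atTop :=
    Tendsto.const_mul_atTop hb ((tendsto_rpow_atTop (by linarith)).comp tendsto_natCast_atTop_atTop)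
  have h2 := (Real.tendsto_pow_mul_exp_neg_atTop_nhds_zero (2 * c)).comp h1
  have h3 : (0 : ℝ) < b ^ (2 * c) / 9 := by positivity
  have h4 := h2.eventually_le_const h3
  filter_upwards [h4, eventually_ge_atTop 1] with n hn hn1
  have hn1' : (1 : ℝ) ≤ n := by exact_mod_cast hn1
  simp only [Function.comp] at hn
  have h5 : (n : ℝ) ^ c ≤ ((n : ℝ) ^ a) ^ (2 * c) := by
    rw [← Real.rpow_natCast, ← Real.rpow_natCast, ← Real.rpow_mul (by linarith)]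
    apply Real.rpow_le_rpow_of_exponent_le hn1'
    push_cast
    have : (0 : ℝ) ≤ c := by positivity
    nlinarith
  have h6 : (0 : ℝ) < b ^ (2 * c) := by positivity
  have hexp := Real.exp_pos (-(b * (n : ℝ) ^ a))
  rw [mul_pow] at hn
  have h7 : b ^ (2 * c) * (9 * (n : ℝ) ^ c * Real.exp (-(b * (n : ℝ) ^ a))) ≤ b ^ (2 * c) * 1 := by
    calc b ^ (2 * c) * (9 * (n : ℝ) ^ c * Real.exp (-(b * (n : ℝ) ^ a)))
        = 9 * ((b ^ (2 * c) * (n : ℝ) ^ c) * Real.exp (-(b * (n : ℝ) ^ a))) := by ring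
      _ ≤ 9 * ((b ^ (2 * c) * ((n : ℝ) ^ a) ^ (2 * c)) * Real.exp (-(b * (n : ℝ) ^ a))) := by
          gcongr
      _ ≤ 9 * (b ^ (2 * c) / 9) := by
          apply mul_le_mul_of_nonneg_left hn (by norm_num)
      _ = b ^ (2 * c) * 1 := by ring
  exact le_of_mul_le_mul_left h7 h6

lemma ev_log {r : ℝ} (hr : 0 < r) :
    ∀ᶠ n : ℕ in atTop, 64 * (Real.log ((n : ℝ) + 1) + 1) ≤ (n : ℝ) ^ r := by
  have h1 := ((isLittleO_log_rpow_atTop hr).def (show (0 : ℝ) < 1 / 128 by norm_num))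
  have h2 := tendsto_natCast_atTop_atTop (R := ℝ) |>.eventually h1
  have h3 : Tendsto (fun n : ℕ => (n : ℝ) ^ r) atTop atTop :=
    (tendsto_rpow_atTop hr).comp tendsto_natCast_atTop_atTop
  filter_upwards [h2, h3.eventually_ge_atTop 256, eventually_ge_atTop 1] with n hn hn2 hn1
  have hn1' : (1 : ℝ) ≤ n := by exact_mod_cast hn1
  rw [Real.norm_of_nonneg (Real.log_nonneg hn1'),
    Real.norm_of_nonneg (Real.rpow_nonneg (by linarith) r)] at hn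
  have h4 : Real.log ((n : ℝ) + 1) ≤ Real.log 2 + Real.log n := by
    rw [← Real.log_mul (by norm_num) (by linarith)]
    apply Real.log_le_log (by linarith) (by linarith)
  have h5 : Real.log 2 ≤ 1 := by
    have := Real.log_two_lt_d9
    linarith
  linarith

lemma term1 {n d s0 : ℕ} {X q0 : ℝ} (hX0 : 0 ≤ X) (hX : X ≤ n * q0 ^ d) (hp1 : q0 ^ d ≤ 1)
    (hs0le : (s0 : ℝ) ≤ X / 4) :
    (2 : ℝ) ^ s0 * (1 - q0 ^ d / 2) ^ n ≤ Real.exp (-(3 / 64 * X)) := by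
  have h9 : (1 - q0 ^ d / 2) ^ n ≤ Real.exp (-(X / 2)) := by
    have h10 : (1 - q0 ^ d / 2) ^ n ≤ (Real.exp (-(q0 ^ d / 2))) ^ n := by
      apply pow_le_pow_left₀ (by linarith)
      exact Real.one_sub_le_exp_neg _
    refine h10.trans ?_
    rw [← Real.exp_nat_mul]
    apply Real.exp_le_exp.2
    linarith
  have h12 : (2 : ℝ) ^ s0 ≤ Real.exp (X / 4) := by
    have h13 : (2 : ℝ) ^ s0 ≤ (Real.exp 1) ^ s0 := by
      apply pow_le_pow_left₀ (by norm_num)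
      have := Real.add_one_le_exp (1 : ℝ)
      linarith
    refine h13.trans ?_
    rw [← Real.exp_nat_mul]
    apply Real.exp_le_exp.2
    linarith
  calc (2 : ℝ) ^ s0 * (1 - q0 ^ d / 2) ^ n ≤ Real.exp (X / 4) * Real.exp (-(X / 2)) := by
        apply mul_le_mul h12 h9 (pow_nonneg (by linarith) n) (Real.exp_pos _).le
    _ = Real.exp (-(X / 4)) := by rw [← Real.exp_add]; congr 1; ring
    _ ≤ Real.exp (-(3 / 64 * X)) := Real.exp_le_exp.2 (by linarith)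

lemma half_pow {s0 : ℕ} {X : ℝ} (hs0ge : X / 4 - 1 ≤ (s0 : ℝ)) :
    (2 : ℝ) ^ (s0 / 2) / 2 ^ s0 ≤ Real.exp (1 / 4 - X / 16) := by
  have hQ1 : ((s0 / 2 : ℕ) : ℝ) ≤ s0 / 2 := Nat.cast_div_le
  have h15 : (2 : ℝ) ^ s0 = 2 ^ (s0 / 2) * 2 ^ (s0 - s0 / 2) := by
    rw [← pow_add]
    congr 1
    omega
  rw [h15, div_mul_eq_div_div, div_self (by positivity), one_div]
  have h16 : Real.exp (X / 16 - 1 / 4) ≤ (2 : ℝ) ^ (s0 - s0 / 2) := by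
    have h17 : (2 : ℝ) ^ (s0 - s0 / 2) = Real.exp ((s0 - s0 / 2 : ℕ) * Real.log 2) := by
      rw [Real.exp_nat_mul, Real.exp_log (by norm_num)]
    rw [h17]
    apply Real.exp_le_exp.2
    have h18 : (s0 : ℝ) / 2 ≤ ((s0 - s0 / 2 : ℕ) : ℝ) := by
      rw [Nat.cast_sub (Nat.div_le_self _ _)]
      linarith
    have h19 : (1 / 2 : ℝ) ≤ Real.log 2 := by
      have := Real.log_two_gt_d9
      linarith
    have h20 : 0 ≤ ((s0 - s0 / 2 : ℕ) : ℝ) := by positivity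
    have h21 : ((s0 - s0 / 2 : ℕ) : ℝ) * (1 / 2) ≤ ((s0 - s0 / 2 : ℕ) : ℝ) * Real.log 2 :=
      mul_le_mul_of_nonneg_left h19 h20
    linarith
  have h21 := Real.exp_pos (X / 16 - 1 / 4)
  calc ((2 : ℝ) ^ (s0 - s0 / 2))⁻¹ ≤ (Real.exp (X / 16 - 1 / 4))⁻¹ :=
        inv_anti₀ h21 h16
    _ = Real.exp (1 / 4 - X / 16) := by rw [← Real.exp_neg]; congr 1; ring

lemma term2 {n D0 s0 : ℕ} {X : ℝ} (hs0ge : X / 4 - 1 ≤ (s0 : ℝ))
    (hD : (D0 : ℝ) * (Real.log ((n : ℝ) + 1) + 1) ≤ X / 64) :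
    ((n : ℝ) + 1) ^ D0 * 2 ^ (s0 / 2 + D0) / 2 ^ s0 ≤ 3 * Real.exp (-(3 / 64 * X)) := by
  have hn0 : (0 : ℝ) ≤ n := by positivity
  have h9 : ((n : ℝ) + 1) ^ D0 * 2 ^ D0 ≤ Real.exp (X / 64) := by
    refine le_trans ?_ (Real.exp_le_exp.2 hD)
    rw [mul_add, Real.exp_add, mul_one]
    apply mul_le_mul
    · rw [mul_comm, Real.exp_mul, Real.exp_log (by linarith), Real.rpow_natCast]
    · have h13 : (2 : ℝ) ^ D0 ≤ (Real.exp 1) ^ D0 := by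
        apply pow_le_pow_left₀ (by norm_num)
        have := Real.add_one_le_exp (1 : ℝ)
        linarith
      rwa [← Real.exp_nat_mul, mul_one] at h13
    · positivity
    · exact (Real.exp_pos _).le
  have h14 := half_pow hs0ge
  calc ((n : ℝ) + 1) ^ D0 * 2 ^ (s0 / 2 + D0) / 2 ^ s0 =
        (((n : ℝ) + 1) ^ D0 * 2 ^ D0) * (2 ^ (s0 / 2) / 2 ^ s0) := by
        rw [pow_add]; ring
    _ ≤ Real.exp (X / 64) * Real.exp (1 / 4 - X / 16) := by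
        apply mul_le_mul h9 h14 (by positivity) (Real.exp_pos _).le
    _ = Real.exp (1 / 4) * Real.exp (-(3 / 64 * X)) := by
        rw [← Real.exp_add, ← Real.exp_add]; congr 1; ring
    _ ≤ 3 * Real.exp (-(3 / 64 * X)) := by
        apply mul_le_mul_of_nonneg_right _ (Real.exp_pos _).le
        have h22 : Real.exp (1 / 4) ≤ Real.exp 1 := Real.exp_le_exp.2 (by norm_num)
        have := Real.exp_one_lt_d9
        linarith

lemma term3 {n c d k K B S : ℕ} {q0 : ℝ} (h8 : 1 ≤ n) (hB : B ≤ n ^ c) (hS : S ≤ n ^ c)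
    (hq0 : 0 ≤ q0) (hqk : q0 ^ k ≤ 1 / (n : ℝ) ^ (4 * c + 3))
    (h7 : (9 * d * (4 ^ K * 3) ^ k : ℝ) ≤ (n : ℝ)) :
    (B : ℝ) * (d * ((S * (n * n + S + 1) : ℕ) : ℝ) * (4 ^ K * (3 * q0)) ^ k) ≤
      3 / (9 * (n : ℝ) ^ c) := by
  have hn0 : (0 : ℝ) < n := by exact_mod_cast h8
  have h9 : (B : ℝ) ≤ (n : ℝ) ^ c := by exact_mod_cast hB
  have h10 : ((S * (n * n + S + 1) : ℕ) : ℝ) ≤ 3 * (n : ℝ) ^ (2 * c + 2) := by
    have h11 : S * (n * n + S + 1) ≤ 3 * n ^ (2 * c + 2) := by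
      have h12 : n * n ≤ n ^ (c + 2) := by
        rw [← pow_two]
        exact Nat.pow_le_pow_right h8 (by omega)
      have h13 : S ≤ n ^ (c + 2) := hS.trans (Nat.pow_le_pow_right h8 (by omega))
      have h14 : 1 ≤ n ^ (c + 2) := Nat.one_le_pow _ _ h8
      calc S * (n * n + S + 1) ≤ n ^ c * (3 * n ^ (c + 2)) :=
            Nat.mul_le_mul hS (by omega)
        _ = 3 * n ^ (2 * c + 2) := by ring
    exact_mod_cast h11
  have h16 : (4 ^ K * (3 * q0)) ^ k = (4 ^ K * 3) ^ k * q0 ^ k := by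
    rw [← mul_pow]
    congr 1
    ring
  rw [h16]
  have hnc : (0 : ℝ) < (n : ℝ) ^ c := by positivity
  calc (B : ℝ) * (d * ((S * (n * n + S + 1) : ℕ) : ℝ) * ((4 ^ K * 3) ^ k * q0 ^ k))
      ≤ (n : ℝ) ^ c * (d * (3 * (n : ℝ) ^ (2 * c + 2)) *
        ((4 ^ K * 3) ^ k * (1 / (n : ℝ) ^ (4 * c + 3)))) := by
        gcongr
    _ = (3 * d * (4 ^ K * 3) ^ k) / (n * (n : ℝ) ^ c) := by
        rw [show (n : ℝ) ^ (4 * c + 3) = (n : ℝ) ^ (3 * c + 2) * (n * (n : ℝ) ^ c) by ring]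
        have : (n : ℝ) ^ (3 * c + 2) = (n : ℝ) ^ c * (n : ℝ) ^ (2 * c + 2) := by ring
        rw [this]
        field_simp
    _ ≤ 3 / (9 * (n : ℝ) ^ c) := by
        rw [div_le_div_iff₀ (by positivity) (by positivity)]
        have := mul_le_mul_of_nonneg_right h7 (show (0 : ℝ) ≤ 3 * (n : ℝ) ^ c by positivity)
        linarith

lemma term4 {n s0 D0 K : ℕ} {ε X Y : ℝ} (hn0 : (0 : ℝ) < n) (hX : X = (n : ℝ) ^ (1 - ε / 4))
    (hY : Y = (n : ℝ) ^ (1 - ε / 2)) (hs0ge : X / 4 - 1 ≤ (s0 : ℝ)) (hD0ge : Y - 1 ≤ (D0 : ℝ))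
    (h4 : (128 * K : ℝ) ≤ (n : ℝ) ^ (ε / 4)) (h5 : 32 ≤ X) (h6 : 2 ≤ Y) :
    (K : ℝ) * (n : ℝ) ^ (3 - ε) ≤
      ((s0 / 2 : ℕ) : ℝ) * (((D0 * (n - n / 2) : ℕ) : ℝ) * (1 / 2)) := by
  have hQ2 : (s0 : ℝ) / 2 - 1 / 2 ≤ ((s0 / 2 : ℕ) : ℝ) := by
    have : s0 ≤ 2 * (s0 / 2) + 1 := by omega
    have h' : (s0 : ℝ) ≤ 2 * ((s0 / 2 : ℕ) : ℝ) + 1 := by exact_mod_cast this
    linarith
  have h9 : X / 16 ≤ ((s0 / 2 : ℕ) : ℝ) := by linarith
  have h10 : Y / 2 ≤ (D0 : ℝ) := by linarith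
  have hn2 : (n : ℝ) / 2 ≤ ((n - n / 2 : ℕ) : ℝ) := by
    have : n ≤ 2 * (n - n / 2) := by omega
    have h' : (n : ℝ) ≤ 2 * ((n - n / 2 : ℕ) : ℝ) := by exact_mod_cast this
    linarith
  have h10' : (Y / 2) * (n / 2) ≤ ((D0 * (n - n / 2) : ℕ) : ℝ) := by
    rw [Nat.cast_mul]
    exact mul_le_mul h10 hn2 (by positivity) (by positivity)
  have h11 : (X / 16) * (((Y / 2) * (n / 2)) * (1 / 2)) ≤
      ((s0 / 2 : ℕ) : ℝ) * (((D0 * (n - n / 2) : ℕ) : ℝ) * (1 / 2)) := by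
    apply mul_le_mul h9 _ (by positivity) (by positivity)
    exact mul_le_mul_of_nonneg_right h10' (by norm_num)
  refine le_trans ?_ h11
  have h12 : X * Y * n = (n : ℝ) ^ (3 - ε) * (n : ℝ) ^ (ε / 4) := by
    calc X * Y * n = X * Y * (n : ℝ) ^ (1 : ℝ) := by rw [Real.rpow_one]
      _ = (n : ℝ) ^ (3 - ε) * (n : ℝ) ^ (ε / 4) := by
        rw [hX, hY, ← Real.rpow_add hn0, ← Real.rpow_add hn0, ← Real.rpow_add hn0]
        congr 1
        ring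
  have h14 : (X / 16) * (((Y / 2) * (n / 2)) * (1 / 2)) =
      (n : ℝ) ^ (3 - ε) * ((n : ℝ) ^ (ε / 4) / 128) := by
    rw [show (X / 16) * (((Y / 2) * (n / 2)) * (1 / 2)) = X * Y * n / 128 by ring, h12]
    ring
  rw [h14, mul_comm]
  apply mul_le_mul_of_nonneg_left _ (Real.rpow_nonneg hn0.le _)
  linarith

lemma term0 {n : ℕ} {X : ℝ} (hX0 : 0 ≤ X) (hXn : X ≤ n) :
    1 / (2 : ℝ) ^ (n / 2) ≤ 3 * Real.exp (-(3 / 64 * X)) := by
  have h1 : (n : ℝ) / 2 - 1 / 2 ≤ ((n / 2 : ℕ) : ℝ) := by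
    have : n ≤ 2 * (n / 2) + 1 := by omega
    have h' : (n : ℝ) ≤ 2 * ((n / 2 : ℕ) : ℝ) + 1 := by exact_mod_cast this
    linarith
  have h2 : Real.exp (X / 4 - 1 / 4) ≤ (2 : ℝ) ^ (n / 2) := by
    have h17 : (2 : ℝ) ^ (n / 2) = Real.exp ((n / 2 : ℕ) * Real.log 2) := by
      rw [Real.exp_nat_mul, Real.exp_log (by norm_num)]
    rw [h17]
    apply Real.exp_le_exp.2
    have h19 : (1 / 2 : ℝ) ≤ Real.log 2 := by
      have := Real.log_two_gt_d9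
      linarith
    have h21 : ((n / 2 : ℕ) : ℝ) * (1 / 2) ≤ ((n / 2 : ℕ) : ℝ) * Real.log 2 :=
      mul_le_mul_of_nonneg_left h19 (Nat.cast_nonneg _)
    linarith
  calc 1 / (2 : ℝ) ^ (n / 2) ≤ 1 / Real.exp (X / 4 - 1 / 4) :=
        one_div_le_one_div_of_le (Real.exp_pos _) h2
    _ = Real.exp (1 / 4) * Real.exp (-(X / 4)) := by
        rw [one_div, ← Real.exp_neg, ← Real.exp_add]
        congr 1
        ring
    _ ≤ 3 * Real.exp (-(3 / 64 * X)) := by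
        apply mul_le_mul _ _ (Real.exp_pos _).le (by norm_num)
        · have h22 : Real.exp (1 / 4) ≤ Real.exp 1 := Real.exp_le_exp.2 (by norm_num)
          have := Real.exp_one_lt_d9
          linarith
        · exact Real.exp_le_exp.2 (by linarith)

/-- adding up the error terms -/
lemma terms_sum {n c : ℕ} {e a0 a1 a2 a3 : ℝ} (hn : 4 ≤ n)
    (he : e ≤ 1 / (9 * (n : ℝ) ^ (c + 2))) (h0 : a0 ≤ 3 * e) (h1 : a1 ≤ e) (h2 : a2 ≤ 3 * e)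
    (h3 : a3 ≤ 3 / (9 * (n : ℝ) ^ (c + 1))) :
    a0 + n * (a1 + a2) + a3 ≤ 1 / (2 * (n : ℝ) ^ c) := by
  have hn4 : (4 : ℝ) ≤ n := by exact_mod_cast hn
  have hn0 : (0 : ℝ) < n := by linarith
  have hnc : (0 : ℝ) < (n : ℝ) ^ c := by positivity
  have h4 : (n : ℝ) * (a1 + a2) ≤ n * (4 * e) := by
    apply mul_le_mul_of_nonneg_left _ hn0.le
    linarith
  have h5 : (n : ℝ) * e ≤ 1 / (9 * (n : ℝ) ^ (c + 1)) := by
    calc (n : ℝ) * e ≤ n * (1 / (9 * (n : ℝ) ^ (c + 2))) := mul_le_mul_of_nonneg_left he hn0.le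
      _ = 1 / (9 * (n : ℝ) ^ (c + 1)) := by
        rw [pow_succ (n : ℝ) (c + 1)]
        field_simp
  have h6 : e ≤ 1 / (9 * (n : ℝ) ^ (c + 1)) := by
    refine he.trans ?_
    apply one_div_le_one_div_of_le (by positivity)
    apply mul_le_mul_of_nonneg_left _ (by norm_num)
    exact pow_le_pow_right₀ (by linarith) (by omega)
  have h7 : a0 + n * (a1 + a2) + a3 ≤ 10 / (9 * (n : ℝ) ^ (c + 1)) := by
    have h8 : (10 : ℝ) / (9 * (n : ℝ) ^ (c + 1)) = 3 * (1 / (9 * (n : ℝ) ^ (c + 1))) +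
        4 * (1 / (9 * (n : ℝ) ^ (c + 1))) + 3 / (9 * (n : ℝ) ^ (c + 1)) := by ring
    rw [h8]
    linarith
  refine h7.trans ?_
  rw [div_le_div_iff₀ (by positivity) (by positivity), pow_succ]
  nlinarith

theorem asym (c d : ℕ) {ε : ℝ} (hε : 0 < ε) (hε1 : ε ≤ 1) :
    ∃ k : ℕ, 1 ≤ k ∧ ∃ N : ℕ, ∀ n : ℕ, N ≤ n → ∀ B S : ℕ, B ≤ n ^ c → S ≤ n ^ c →
      ∃ q0 : ℝ, 0 ≤ q0 ∧ q0 ≤ 1 / 3 ∧ 1 ≤ n ∧ ∃ Q D0 s0 m : ℕ, Q ≤ n ∧
        1 / 2 ^ m + n * (2 ^ s0 * (1 - q0 ^ d / 2) ^ n + (n + 1) ^ D0 * 2 ^ (Q + D0) / 2 ^ s0) +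
          (B : ℝ) * (d * ((S * (n * n + S + 1) : ℕ) : ℝ) * (4 ^ (KK k d) * (3 * q0)) ^ k) ≤
          1 / (2 * (n : ℝ) ^ c) ∧
        (KK k d : ℝ) * (n : ℝ) ^ (3 - ε) ≤ Q * (((D0 * (n - m) : ℕ) : ℝ) * (1 / 2)) := by
  set δ : ℝ := ε / (4 * (d + 1)) with hδ
  have hδ0 : 0 < δ := by positivity
  obtain ⟨k, hk⟩ := exists_nat_ge ((4 * (c + 1) + 3) / δ)
  have hk1 : 1 ≤ k := by
    by_contra h
    have h0 : k = 0 := by omega
    rw [h0] at hk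
    have : (0 : ℝ) < (4 * (c + 1) + 3) / δ := by positivity
    push_cast at hk
    linarith
  have hδk : (4 * (c + 1) + 3 : ℝ) ≤ δ * k := by
    rw [div_le_iff₀ hδ0] at hk
    linarith
  refine ⟨k, hk1, ?_⟩
  have e1 := ((tendsto_rpow_neg_atTop hδ0).comp
    (tendsto_natCast_atTop_atTop (R := ℝ))).eventually_le_const (show (0 : ℝ) < 1 / 3 by norm_num)
  have e2 := ev_pow_exp (c + 2) (a := 1 - ε / 4) (b := 3 / 64) (by linarith) (by norm_num)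
  have e3 := ev_log (r := ε / 4) (by positivity)
  have e4 : ∀ᶠ n : ℕ in atTop, (128 * KK k d : ℝ) ≤ (n : ℝ) ^ (ε / 4) :=
    ((tendsto_rpow_atTop (by positivity)).comp
      tendsto_natCast_atTop_atTop).eventually_ge_atTop _
  have e5 : ∀ᶠ n : ℕ in atTop, (32 : ℝ) ≤ (n : ℝ) ^ (1 - ε / 4) :=
    ((tendsto_rpow_atTop (by linarith)).comp tendsto_natCast_atTop_atTop).eventually_ge_atTop _
  have e6 : ∀ᶠ n : ℕ in atTop, (2 : ℝ) ≤ (n : ℝ) ^ (1 - ε / 2) :=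
    ((tendsto_rpow_atTop (by linarith)).comp tendsto_natCast_atTop_atTop).eventually_ge_atTop _
  have e7 : ∀ᶠ n : ℕ in atTop, (9 * d * (4 ^ (KK k d) * 3) ^ k : ℝ) ≤ (n : ℝ) :=
    tendsto_natCast_atTop_atTop.eventually_ge_atTop _
  obtain ⟨N, hN⟩ := eventually_atTop.1 (((((((e1.and e2).and e3).and e4).and e5).and e6).and
    e7).and (eventually_ge_atTop 4))
  refine ⟨N, ?_⟩
  intro n hn B S hB hS
  obtain ⟨⟨⟨⟨⟨⟨⟨h1, h2⟩, h3⟩, h4⟩, h5⟩, h6⟩, h7⟩, h8'⟩ := hN n hn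
  clear e1 e2 e3 e4 e5 e6 e7 hN
  have h8 : 1 ≤ n := by omega
  have hn1 : (1 : ℝ) ≤ n := by exact_mod_cast h8
  have hn0 : (0 : ℝ) < n := by linarith
  obtain ⟨X, hX⟩ : ∃ X : ℝ, X = (n : ℝ) ^ (1 - ε / 4) := ⟨_, rfl⟩
  obtain ⟨Y, hY⟩ : ∃ Y : ℝ, Y = (n : ℝ) ^ (1 - ε / 2) := ⟨_, rfl⟩
  obtain ⟨q0, hq0⟩ : ∃ q0 : ℝ, q0 = (n : ℝ) ^ (-δ) := ⟨_, rfl⟩
  rw [← hX] at h2 h5
  rw [← hY] at h6
  have h1' : q0 ≤ 1 / 3 := by rw [hq0]; exact h1
  have hq00 : 0 < q0 := by rw [hq0]; exact Real.rpow_pos_of_pos hn0 _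
  have hX0 : 0 ≤ X := by linarith
  have hY0 : 0 ≤ Y := by linarith
  have hs0le : (⌊X / 4⌋₊ : ℝ) ≤ X / 4 := Nat.floor_le (by positivity)
  have hs0ge : X / 4 - 1 ≤ (⌊X / 4⌋₊ : ℝ) := (Nat.sub_one_lt_floor (X / 4)).le
  have hD0le : (⌊Y⌋₊ : ℝ) ≤ Y := Nat.floor_le hY0
  have hD0ge : Y - 1 ≤ (⌊Y⌋₊ : ℝ) := (Nat.sub_one_lt_floor Y).le
  generalize ⌊X / 4⌋₊ = s0 at hs0le hs0ge
  generalize ⌊Y⌋₊ = D0 at hD0le hD0ge
  have hXn : X ≤ n := by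
    calc X ≤ (n : ℝ) ^ (1 : ℝ) := by
          rw [hX]
          exact Real.rpow_le_rpow_of_exponent_le hn1 (by linarith)
      _ = n := Real.rpow_one _
  have hnc : (0 : ℝ) < (n : ℝ) ^ (c + 2) := by positivity
  have hsmall : Real.exp (-(3 / 64 * X)) ≤ 1 / (9 * (n : ℝ) ^ (c + 2)) := by
    rw [le_div_iff₀ (by positivity)]
    linarith
  refine ⟨q0, hq00.le, h1', h8, s0 / 2, D0, s0, n / 2, ?_, ?_, ?_⟩
  · have hQ1 : ((s0 / 2 : ℕ) : ℝ) ≤ s0 / 2 := Nat.cast_div_le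
    have : ((s0 / 2 : ℕ) : ℝ) ≤ n := by linarith
    exact_mod_cast this
  · have hp : (n : ℝ) ^ (-(ε / 4)) ≤ q0 ^ d := by
      rw [hq0, ← Real.rpow_natCast, ← Real.rpow_mul hn0.le]
      apply Real.rpow_le_rpow_of_exponent_le hn1
      have h9 : δ * d ≤ ε / 4 := by
        rw [hδ, div_mul_eq_mul_div, div_le_iff₀ (by positivity)]
        nlinarith
      linarith
    have hp1 : q0 ^ d ≤ 1 := pow_le_one₀ hq00.le (by linarith)
    have hXp : X ≤ n * q0 ^ d := by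
      rw [hX, show (1 - ε / 4 : ℝ) = 1 + -(ε / 4) by ring, Real.rpow_add hn0, Real.rpow_one]
      exact mul_le_mul_of_nonneg_left hp hn0.le
    have t1 := term1 hX0 hXp hp1 hs0le
    have hDX : (D0 : ℝ) * (Real.log ((n : ℝ) + 1) + 1) ≤ X / 64 := by
      have h11 : X = Y * (n : ℝ) ^ (ε / 4) := by
        rw [hX, hY, ← Real.rpow_add hn0]
        congr 1
        ring
      have h12 : 0 ≤ Real.log ((n : ℝ) + 1) + 1 := by
        have := Real.log_nonneg (show (1 : ℝ) ≤ (n : ℝ) + 1 by linarith)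
        linarith
      calc (D0 : ℝ) * (Real.log ((n : ℝ) + 1) + 1) ≤ Y * (Real.log ((n : ℝ) + 1) + 1) :=
            mul_le_mul_of_nonneg_right hD0le h12
        _ ≤ Y * ((n : ℝ) ^ (ε / 4) / 64) := by
            apply mul_le_mul_of_nonneg_left _ hY0
            linarith
        _ = X / 64 := by rw [h11]; ring
    have t2 := term2 hs0ge hDX
    have hqk : q0 ^ k ≤ 1 / (n : ℝ) ^ (4 * (c + 1) + 3) := by
      rw [one_div, hq0, ← Real.rpow_natCast, ← Real.rpow_natCast, ← Real.rpow_mul hn0.le,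
        ← Real.rpow_neg hn0.le]
      apply Real.rpow_le_rpow_of_exponent_le hn1
      push_cast
      linarith
    have t3 := term3 h8 (hB.trans (Nat.pow_le_pow_right h8 (Nat.le_succ c)))
      (hS.trans (Nat.pow_le_pow_right h8 (Nat.le_succ c))) hq00.le hqk h7
    exact terms_sum h8' hsmall (term0 hX0 hXn) t1 t2 t3
  · exact term4 hn0 hX hY hs0ge hD0ge h4 h5 h6

end Pool.Agent.TH163.AC2
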