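import Pool.Agent.TH163.AC2.Main

/-!
# The lower bound with explicit parameters, averaged over the stream
-/

set_option autoImplicit false

namespace Pool.Agent.TH163.AC2

open Finset H568R2 DomAC0
open Pool.Agent.H699R2.OMV (Prog Vec Mat IsProb before avg)

variable {n : ℕ} {Ω A : Type} {w : ℕ}

lemma avg_eq (F : Mat n → (Fin n → Vec n) → ℝ) :
    avg F = (∑ vs, mavg (fun M => F M vs)) / (Fintype.card (Fin n → Vec n) : ℝ) := by
  unfold avg mavg
  rw [Finset.sum_comm, ← Finset.sum_div, div_div]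

lemma mavg_sum_mul {κ : Type} (s : Finset κ) (μ : κ → ℝ) (F : κ → Mat n → ℝ) :
    mavg (fun M => ∑ k ∈ s, μ k * F k M) = ∑ k ∈ s, μ k * mavg (F k) := by
  unfold mavg
  rw [Finset.sum_comm, Finset.sum_div]
  apply Finset.sum_congr rfl
  intro k _
  rw [← Finset.mul_sum, mul_div_assoc]

lemma before_length (vs : Fin n → Vec n) (q : Fin n) : (before vs q).length = q.val := by
  unfold before
  rw [List.length_take, List.length_ofFn]
  omega

lemma before_update (vs : Fin n → Vec n) (q : Fin n) (v : Vec n) :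
    before (Function.update vs q v) q = before vs q := by
  apply List.ext_getElem?
  intro i
  unfold before
  rw [List.getElem?_take, List.getElem?_take]
  split_ifs with h
  · rw [List.getElem?_ofFn, List.getElem?_ofFn]
    split_ifs with h2
    · rw [Function.update_of_ne]
      intro h3
      have := congrArg Fin.val h3
      simp at this
      omega
    · rfl
  · rfl

lemma sum_before (F : List (Vec n) → Vec n → ℝ) (q : Fin n) (b : ℝ)
    (hF : ∀ h : List (Vec n), h.length = q.val → 2 ^ n * b ≤ ∑ v, F h v) :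
    (Fintype.card (Fin n → Vec n) : ℝ) * b ≤ ∑ vs : Fin n → Vec n, F (before vs q) (vs q) := by
  rw [sum_resample (fun vs : Fin n → Vec n => F (before vs q) (vs q)) q]
  have hV : (Fintype.card (Vec n) : ℝ) = 2 ^ n := by
    rw [Fintype.card_fun, ZMod.card, Fintype.card_fin]
    push_cast
    rfl
  rw [← nsmul_eq_mul, ← Finset.card_univ, ← Finset.sum_const]
  apply Finset.sum_le_sum
  intro vs _
  rw [hV, le_div_iff₀ (by positivity), mul_comm]
  simp only [before_update, Function.update_self]
  exact hF _ (before_length vs q)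

open Classical in
theorem core [Fintype Ω] [Fintype A] (alg : Alg n Ω A w) (μ : Ω → ℝ) (hμ : IsProb μ) {γ : ℝ}
    (hR : alg.Right μ γ) {d s : ℕ} (hDS : alg.DepthSize d s) {q0 : ℝ} (h0 : 0 ≤ q0)
    (h1 : q0 ≤ 1 / 3) {k : ℕ} (hk : 1 ≤ k) (Q D0 s0 m : ℕ) (hQ : Q ≤ n) {β : ℝ}
    (hβ : 1 / 2 ^ m + n * (2 ^ s0 * (1 - q0 ^ d / 2) ^ n +
        (n + 1) ^ D0 * 2 ^ (Q + D0) / 2 ^ s0) +
      (Fintype.card A * w : ℕ) * (d * ((s * (n * n + s + 1) : ℕ) : ℝ) *
        (4 ^ (KK k d) * (3 * q0)) ^ k) ≤ β) :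
    Q * (((D0 * (n - m) : ℕ) : ℝ) * (γ - β)) ≤ KK k d * w * avg (fun M vs =>
      ∑ ω, μ ω * ∑ q, ((alg.probes ω M vs q).length : ℝ)) := by
  set K := KK k d with hK
  set P : ℝ := ((D0 * (n - m) : ℕ) : ℝ) with hP
  have hP0 : 0 ≤ P := by positivity
  have hp0 : 0 ≤ q0 ^ d := pow_nonneg h0 d
  have hp1 : q0 ^ d ≤ 1 := pow_le_one₀ h0 (by linarith)
  have hcV : (0 : ℝ) < (Fintype.card (Fin n → Vec n) : ℝ) := by
    exact_mod_cast Fintype.card_pos
  -- the time of one vector
  let T : Fin n → ℝ := fun q => avg (fun M vs =>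
      ∑ ω, μ ω * ((alg.probes ω M vs q).length : ℝ))
  have hT : ∀ q, T q = (∑ ω, μ ω * ∑ vs : Fin n → Vec n, lenE alg ω (before vs q) (vs q)) /
      (Fintype.card (Fin n → Vec n) : ℝ) := by
    intro q
    show avg _ = _
    rw [avg_eq]
    congr 1
    simp only [mavg_sum_mul]
    rw [Finset.sum_comm]
    apply Finset.sum_congr rfl
    intro ω _
    rw [Finset.mul_sum]
    rfl
  have hE : ∀ q : Fin n, γ ≤ (∑ ω, μ ω * ∑ vs : Fin n → Vec n,
      rightE alg ω (before vs q) (vs q)) / (Fintype.card (Fin n → Vec n) : ℝ) := by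
    intro q
    have := hR q
    rw [avg_eq] at this
    simp only [mavg_sum_mul] at this
    rw [Finset.sum_comm] at this
    refine le_trans this (le_of_eq ?_)
    congr 1
    apply Finset.sum_congr rfl
    intro ω _
    rw [Finset.mul_sum]
    rfl
  have hTnn : ∀ q, 0 ≤ T q := by
    intro q
    rw [hT]
    apply div_nonneg _ hcV.le
    apply Finset.sum_nonneg
    intro ω _
    apply mul_nonneg (hμ.nonneg ω)
    apply Finset.sum_nonneg
    intro vs _
    unfold lenE mavg
    positivity
  have hone : ∀ q : Fin n, q.val < Q → P * (γ - β) ≤ K * w * T q := by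
    intro q hq
    have hG : ∀ ω, (Fintype.card (Fin n → Vec n) : ℝ) * (-(P * β)) ≤
        ∑ vs : Fin n → Vec n, (K * w * lenE alg ω (before vs q) (vs q) -
          P * rightE alg ω (before vs q) (vs q)) := by
      intro ω
      apply sum_before (fun h v => K * w * lenE alg ω h v - P * rightE alg ω h v)
      intro h hh
      obtain ⟨G, B, hGB⟩ := hDS ω h
      refine le_trans ?_ (avg_vec alg ω h G B K D0 s0 m hp0 hp1)
      apply mul_le_mul_of_nonneg_left _ (by positivity)
      rw [← hP]
      apply neg_le_neg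
      apply mul_le_mul_of_nonneg_left _ hP0
      have h2 := bad_le alg ω h G B hGB h0 h1 hk
      have h3 : ((n : ℝ) + 1) ^ D0 * 2 ^ (h.length + D0) / 2 ^ s0 ≤
          ((n : ℝ) + 1) ^ D0 * 2 ^ (Q + D0) / 2 ^ s0 := by
        apply div_le_div_of_nonneg_right _ (by positivity)
        apply mul_le_mul_of_nonneg_left _ (by positivity)
        exact pow_le_pow_right₀ (by norm_num) (by omega)
      have h4 : (n : ℝ) * (2 ^ s0 * (1 - q0 ^ d / 2) ^ n +
          ((n : ℝ) + 1) ^ D0 * 2 ^ (h.length + D0) / 2 ^ s0) ≤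
          (n : ℝ) * (2 ^ s0 * (1 - q0 ^ d / 2) ^ n +
          ((n : ℝ) + 1) ^ D0 * 2 ^ (Q + D0) / 2 ^ s0) := by
        apply mul_le_mul_of_nonneg_left _ (by positivity)
        linarith
      rw [← hK] at h2
      linarith
    have hsum : (Fintype.card (Fin n → Vec n) : ℝ) * (-(P * β)) ≤
        K * w * (∑ ω, μ ω * ∑ vs : Fin n → Vec n, lenE alg ω (before vs q) (vs q)) -
        P * ∑ ω, μ ω * ∑ vs : Fin n → Vec n, rightE alg ω (before vs q) (vs q) := by
      have h4 := Finset.sum_le_sum (fun ω (_ : ω ∈ (univ : Finset Ω)) =>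
        mul_le_mul_of_nonneg_left (hG ω) (hμ.nonneg ω))
      rw [← Finset.sum_mul, hμ.sum_one, one_mul] at h4
      refine h4.trans (le_of_eq ?_)
      rw [Finset.mul_sum, Finset.mul_sum, ← Finset.sum_sub_distrib]
      apply Finset.sum_congr rfl
      intro ω _
      rw [Finset.sum_sub_distrib, ← Finset.mul_sum, ← Finset.mul_sum]
      ring
    have h5 : -(P * β) ≤ K * w * T q - P * ((∑ ω, μ ω *
        ∑ vs : Fin n → Vec n, rightE alg ω (before vs q) (vs q)) /
          (Fintype.card (Fin n → Vec n) : ℝ)) := by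
      rw [hT, ← mul_div_assoc, ← mul_div_assoc, ← sub_div, le_div_iff₀ hcV]
      linarith
    have h7 := mul_le_mul_of_nonneg_left (hE q) hP0
    linarith
  have htot : avg (fun M vs => ∑ ω, μ ω * ∑ q, ((alg.probes ω M vs q).length : ℝ)) =
      ∑ q, T q := by
    show _ = ∑ q, avg _
    unfold avg
    rw [← Finset.sum_div]
    congr 1
    symm
    rw [Finset.sum_comm]
    apply Finset.sum_congr rfl
    intro M _
    rw [Finset.sum_comm]
    apply Finset.sum_congr rfl
    intro vs _
    rw [Finset.sum_comm]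
    apply Finset.sum_congr rfl
    intro ω _
    rw [Finset.mul_sum]
  rw [htot]
  have hsub : ∑ q ∈ univ.filter (fun q : Fin n => q.val < Q), (K * w * T q) ≤
      K * w * ∑ q, T q := by
    rw [Finset.mul_sum]
    apply Finset.sum_le_sum_of_subset_of_nonneg (Finset.filter_subset _ _)
    intro q _ _
    exact mul_nonneg (by positivity) (hTnn q)
  refine le_trans ?_ hsub
  have hcard : (univ.filter (fun q : Fin n => q.val < Q)).card = Q := by
    rw [Fin.card_filter_val_lt, min_eq_right hQ]
  have := Finset.card_nsmul_le_sum (univ.filter (fun q : Fin n => q.val < Q))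
    (fun q => K * w * T q) (P * (γ - β)) (by
      intro q hq
      exact hone q (Finset.mem_filter.1 hq).2)
  rw [hcard, nsmul_eq_mul] at this
  exact this

end Pool.Agent.TH163.AC2
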