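import Pool.Agent.TH163.AC2.Stars

/-!
# The lower bound with explicit parameters, for given coins and earlier vectors
-/

set_option autoImplicit false

namespace Pool.Agent.TH163.AC2

open Finset H568R2 DomAC0
open Pool.Agent.H699R2.OMV (Prog Vec Mat IsProb before avg)

lemma unif_add {I : Type} [Fintype I] [DecidableEq I] (F G : (I → Bool) → ℝ) :
    unif (fun x => F x + G x) = unif F + unif G := by
  unfold unif
  rw [Finset.sum_add_distrib, add_div]

variable {n : ℕ} {Ω A : Type} {w : ℕ}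

/-- the average over all matrices -/
noncomputable def mavg (g : Mat n → ℝ) : ℝ := (∑ M, g M) / (Fintype.card (Mat n) : ℝ)

lemma mavg_eq (G : (Mat n)ˣ) (B : Fin n → (Mat n)ˣ) (g : Mat n → ℝ) :
    mavg g = unif (fun X => g (toM G B X)) := by
  unfold mavg unif
  rw [← (matEquiv G B).sum_comp g, Fintype.card_congr (matEquiv G B)]
  rfl

/-- expected number of probes over a random matrix -/
noncomputable def lenE (alg : Alg n Ω A w) (ω : Ω) (h : List (Vec n)) (v : Vec n) : ℝ :=
  mavg (fun M => ((alg.adr ω h M v).length : ℝ))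

/-- probability over a random matrix that the answer is right -/
noncomputable def rightE (alg : Alg n Ω A w) (ω : Ω) (h : List (Vec n)) (v : Vec n) : ℝ :=
  mavg (fun M => if alg.ans ω h M v = M.mulVec v then (1 : ℝ) else 0)

/-- all memory bits are small juntas under the restriction -/
def AllJunta (alg : Alg n Ω A w) (ω : Ω) (h : List (Vec n)) (G : (Mat n)ˣ)
    (B : Fin n → (Mat n)ˣ) (K : ℕ) (ρ : Restr (Fin n × Fin n)) : Prop :=
  ∀ a i, Junta K (rs (fun X => alg.mem ω h (toM G B X) a i) ρ)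

/-- few columns of row `r` can be enough for the vector `v` -/
def BadRow (B : Fin n → (Mat n)ˣ) (h : List (Vec n)) (D0 : ℕ) (ρ : Restr (Fin n × Fin n))
    (v : Vec n) (r : Fin n) : Prop :=
  ¬ Avoid (free ρ r) (h.map (↑(B r)⁻¹ : Mat n).mulVec) D0 ((↑(B r)⁻¹ : Mat n).mulVec v)

lemma sum_rd_le (alg : Alg n Ω A w) (ω : Ω) (h : List (Vec n)) (G : (Mat n)ˣ)
    (B : Fin n → (Mat n)ˣ) (ρ : Restr (Fin n × Fin n))
    (J : A → Fin w → Finset (Fin n × Fin n)) (K : ℕ) (hK : ∀ a i, (J a i).card ≤ K) (v : Vec n)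
    (x : Fin n × Fin n → Bool) :
    ∑ r, (rd alg ω h G B ρ J v x r).card ≤
      K * w * (alg.adr ω h (toM G B (ov ρ x)) v).length := by
  classical
  set L := alg.adr ω h (toM G B (ov ρ x)) v with hL
  set U : Finset (Fin n × Fin n) := univ.filter (fun e => ∃ a ∈ L, ∃ i, e ∈ J a i) with hU
  have h1 : ∑ r, (rd alg ω h G B ρ J v x r).card ≤ U.card := by
    rw [Finset.card_eq_sum_card_fiberwise (f := Prod.fst) (s := U) (t := univ)
      (fun _ _ => Finset.mem_coe.2 (Finset.mem_univ _))]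
    apply Finset.sum_le_sum
    intro r _
    apply Finset.card_le_card_of_injOn (fun c => (r, c))
    · intro c hc
      have hc' : c ∈ rd alg ω h G B ρ J v x r := hc
      unfold rd at hc'
      rw [Finset.mem_filter] at hc'
      obtain ⟨_, a, ha, i, hi⟩ := hc'
      show (r, c) ∈ U.filter (fun e => e.1 = r)
      rw [Finset.mem_filter, hU, Finset.mem_filter]
      exact ⟨⟨Finset.mem_univ _, a, ha, i, hi⟩, rfl⟩
    · intro c _ c' _ hcc
      exact (Prod.mk.inj hcc).2
  have h2 : U ⊆ L.toFinset.biUnion (fun a => (univ : Finset (Fin w)).biUnion (fun i => J a i)) := by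
    intro e he
    rw [hU, Finset.mem_filter] at he
    obtain ⟨_, a, ha, i, hi⟩ := he
    rw [Finset.mem_biUnion]
    refine ⟨a, List.mem_toFinset.2 ha, ?_⟩
    rw [Finset.mem_biUnion]
    exact ⟨i, Finset.mem_univ _, hi⟩
  calc ∑ r, (rd alg ω h G B ρ J v x r).card ≤ U.card := h1
    _ ≤ ∑ a ∈ L.toFinset, ((univ : Finset (Fin w)).biUnion (fun i => J a i)).card :=
        (Finset.card_le_card h2).trans Finset.card_biUnion_le
    _ ≤ ∑ a ∈ L.toFinset, w * K := by
        apply Finset.sum_le_sum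
        intro a _
        refine Finset.card_biUnion_le.trans ?_
        refine (Finset.sum_le_sum (fun i _ => hK a i)).trans ?_
        rw [Finset.sum_const, Finset.card_univ, Fintype.card_fin, smul_eq_mul]
    _ = L.toFinset.card * (w * K) := by rw [Finset.sum_const, smul_eq_mul]
    _ ≤ L.length * (w * K) := Nat.mul_le_mul_right _ (List.toFinset_card_le L)
    _ = K * w * L.length := by ring

/-- if few rows are neglected, many columns are read -/
lemma sum_rd_ge (alg : Alg n Ω A w) (ω : Ω) (h : List (Vec n)) (G : (Mat n)ˣ)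
    (B : Fin n → (Mat n)ˣ) (ρ : Restr (Fin n × Fin n))
    (J : A → Fin w → Finset (Fin n × Fin n)) (v : Vec n) (D0 m : ℕ)
    (x : Fin n × Fin n → Bool) (hm : (rw' alg ω h G B ρ J v D0 x).card < m) :
    D0 * (n - m) ≤ ∑ r, (rd alg ω h G B ρ J v x r).card := by
  classical
  have h1 : ∑ r ∈ univ.filter (fun r => ¬ (rd alg ω h G B ρ J v x r).card < D0), D0 ≤
      ∑ r, (rd alg ω h G B ρ J v x r).card := by
    refine le_trans (Finset.sum_le_sum (g := fun r => (rd alg ω h G B ρ J v x r).card) ?_)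
      (Finset.sum_le_sum_of_subset (Finset.filter_subset _ _))
    intro r hr
    exact not_lt.1 (Finset.mem_filter.1 hr).2
  rw [Finset.sum_const, smul_eq_mul] at h1
  refine le_trans ?_ h1
  rw [mul_comm]
  apply Nat.mul_le_mul_right
  have h2 := Finset.card_filter_add_card_filter_not (s := (univ : Finset (Fin n)))
    (fun r => (rd alg ω h G B ρ J v x r).card < D0)
  rw [Finset.card_univ, Fintype.card_fin] at h2
  unfold rw' at hm
  omega

lemma one_restr_good (alg : Alg n Ω A w) (ω : Ω) (h : List (Vec n)) (G : (Mat n)ˣ)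
    (B : Fin n → (Mat n)ˣ) (v : Vec n) (K D0 m : ℕ) (ρ : Restr (Fin n × Fin n))
    (J : A → Fin w → Finset (Fin n × Fin n)) (hJK : ∀ a i, (J a i).card ≤ K)
    (hJd : ∀ a i, DepOn (rs (fun X => alg.mem ω h (toM G B X) a i) ρ) (J a i))
    (hav : ∀ r, Avoid (free ρ r) (h.map (↑(B r)⁻¹ : Mat n).mulVec) D0
          ((↑(B r)⁻¹ : Mat n).mulVec v)) {P : ℝ} (hP : P = ((D0 * (n - m) : ℕ) : ℝ)) :
    P * unif (fun x => if alg.ans ω h (toM G B (ov ρ x)) v =
        (toM G B (ov ρ x)).mulVec v then (1 : ℝ) else 0) ≤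
      K * w * unif (fun x => ((alg.adr ω h (toM G B (ov ρ x)) v).length : ℝ)) +
      P * (1 / 2 ^ m) := by
  have hP0 : 0 ≤ P := by rw [hP]; positivity
  have h1 := card_right alg ω h G B ρ J v hJd D0 m (by
    intro r D hD
    obtain ⟨u, h1, h2, h3, h4⟩ := hav r D hD
    refine ⟨u, fun c hc => (Finset.mem_filter.1 (h1 c hc)).2, h2, ?_, h4⟩
    intro z hz
    exact h3 _ (List.mem_map_of_mem hz))
  have h2 : unif (fun x => if (alg.ans ω h (toM G B (ov ρ x)) v =
    (toM G B (ov ρ x)).mulVec v ∧ m ≤ (rw' alg ω h G B ρ J v D0 x).card) then (1 : ℝ)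
      else 0) ≤ 1 / 2 ^ m := by
    unfold unif
    rw [Finset.sum_boole]
    have h3 : (0 : ℝ) < Fintype.card (Fin n × Fin n → Bool) := by
      exact_mod_cast Fintype.card_pos
    rw [div_le_div_iff₀ h3 (by positivity), mul_comm, one_mul]
    exact_mod_cast h1
  have h3 : ∀ x, P * (if alg.ans ω h (toM G B (ov ρ x)) v =
      (toM G B (ov ρ x)).mulVec v then (1 : ℝ) else 0) ≤
      ((∑ r, (rd alg ω h G B ρ J v x r).card : ℕ) : ℝ) +
      P * (if (alg.ans ω h (toM G B (ov ρ x)) v =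
        (toM G B (ov ρ x)).mulVec v ∧ m ≤ (rw' alg ω h G B ρ J v D0 x).card) then (1 : ℝ)
      else 0) := by
    intro x
    have h4 : (0 : ℝ) ≤ ((∑ r, (rd alg ω h G B ρ J v x r).card : ℕ) : ℝ) := Nat.cast_nonneg _
    by_cases h5 : alg.ans ω h (toM G B (ov ρ x)) v = (toM G B (ov ρ x)).mulVec v
    · by_cases h6 : m ≤ (rw' alg ω h G B ρ J v D0 x).card
      · rw [if_pos h5, if_pos ⟨h5, h6⟩]
        linarith
      · rw [if_pos h5, if_neg (fun h => h6 h.2), mul_one, mul_zero, add_zero, hP]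
        exact Nat.cast_le.2 (sum_rd_ge alg ω h G B ρ J v D0 m x (not_le.1 h6))
    · rw [if_neg h5, if_neg (fun h => h5 h.1)]
      linarith
  have h5 := unif_mono h3
  rw [unif_smul, unif_add, unif_smul] at h5
  have h6 := mul_le_mul_of_nonneg_left h2 hP0
  have h7 : unif (fun x => ((∑ r, (rd alg ω h G B ρ J v x r).card : ℕ) : ℝ)) ≤
      K * w * unif (fun x => ((alg.adr ω h (toM G B (ov ρ x)) v).length : ℝ)) := by
    rw [← unif_smul]
    apply unif_mono
    intro x
    have h8 : ((∑ r, (rd alg ω h G B ρ J v x r).card : ℕ) : ℝ) ≤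
        ((K * w * (alg.adr ω h (toM G B (ov ρ x)) v).length : ℕ) : ℝ) :=
      Nat.cast_le.2 (sum_rd_le alg ω h G B ρ J K hJK v x)
    rw [Nat.cast_mul, Nat.cast_mul] at h8
    exact h8
  exact h5.trans (add_le_add h7 h6)

open Classical in
lemma one_restr (alg : Alg n Ω A w) (ω : Ω) (h : List (Vec n)) (G : (Mat n)ˣ)
    (B : Fin n → (Mat n)ˣ) (v : Vec n) (K D0 m : ℕ) {P : ℝ}
    (hP : P = ((D0 * (n - m) : ℕ) : ℝ)) (ρ : Restr (Fin n × Fin n)) :
    P * unif (fun x => if alg.ans ω h (toM G B (ov ρ x)) v =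
        (toM G B (ov ρ x)).mulVec v then (1 : ℝ) else 0) ≤
      K * w * unif (fun x => ((alg.adr ω h (toM G B (ov ρ x)) v).length : ℝ)) +
      P * (1 / 2 ^ m) +
      P * ∑ r, (if BadRow B h D0 ρ v r then (1 : ℝ) else 0) +
      P * (if ¬ AllJunta alg ω h G B K ρ then (1 : ℝ) else 0) := by
  have hP0 : 0 ≤ P := by rw [hP]; positivity
  have hU : 0 ≤ K * w * unif (fun x => ((alg.adr ω h (toM G B (ov ρ x)) v).length : ℝ)) :=
    mul_nonneg (by positivity) (unif_nonneg (fun x => by positivity))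
  have hW : unif (fun x => if alg.ans ω h (toM G B (ov ρ x)) v =
        (toM G B (ov ρ x)).mulVec v then (1 : ℝ) else 0) ≤ 1 := by
    refine (unif_mono (G := fun _ => (1 : ℝ)) ?_).trans (le_of_eq (unif_const 1))
    intro x
    split_ifs <;> norm_num
  have hW' := mul_le_mul_of_nonneg_left hW hP0
  have hM : 0 ≤ P * (1 / 2 ^ m) := by positivity
  have hA0 : ∀ r ∈ (univ : Finset (Fin n)),
      (0 : ℝ) ≤ (if BadRow B h D0 ρ v r then (1 : ℝ) else 0) := by
    intro r _
    split_ifs <;> norm_num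
  have hA : 0 ≤ P * ∑ r, (if BadRow B h D0 ρ v r then (1 : ℝ) else 0) :=
    mul_nonneg hP0 (Finset.sum_nonneg hA0)
  by_cases hg : AllJunta alg ω h G B K ρ
  · rw [if_neg (not_not.2 hg), mul_zero, add_zero]
    by_cases hb : ∃ r, BadRow B h D0 ρ v r
    · obtain ⟨r, hr⟩ := hb
      have h1 : (1 : ℝ) ≤ ∑ r, (if BadRow B h D0 ρ v r then (1 : ℝ) else 0) := by
        refine le_trans ?_ (Finset.single_le_sum hA0 (Finset.mem_univ r))
        rw [if_pos hr]
      have h2 := mul_le_mul_of_nonneg_left h1 hP0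
      linarith
    · have hav : ∀ r, Avoid (free ρ r) (h.map (↑(B r)⁻¹ : Mat n).mulVec) D0
          ((↑(B r)⁻¹ : Mat n).mulVec v) := by
        intro r
        by_contra hcon
        exact hb ⟨r, hcon⟩
      have hg' := hg
      unfold AllJunta Junta at hg'
      choose J hJK hJd using hg'
      have h1 := one_restr_good alg ω h G B v K D0 m ρ J hJK hJd hav hP
      exact h1.trans (le_add_of_nonneg_right hA)
  · rw [if_pos hg, mul_one]
    linarith

open Classical in
lemma avg_restr (alg : Alg n Ω A w) (ω : Ω) (h : List (Vec n)) (G : (Mat n)ˣ)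
    (B : Fin n → (Mat n)ˣ) (v : Vec n) (K D0 m : ℕ) {p : ℝ} (h0 : 0 ≤ p) (h1 : p ≤ 1) :
    ((D0 * (n - m) : ℕ) : ℝ) * rightE alg ω h v ≤ K * w * lenE alg ω h v +
      ((D0 * (n - m) : ℕ) : ℝ) * (1 / 2 ^ m) +
      ((D0 * (n - m) : ℕ) : ℝ) * ∑ r, Ex (wq p) (fun ρ : Restr (Fin n × Fin n) =>
        if BadRow B h D0 ρ v r then (1 : ℝ) else 0) +
      ((D0 * (n - m) : ℕ) : ℝ) * Ex (wq p) (fun ρ : Restr (Fin n × Fin n) =>
        if ¬ AllJunta alg ω h G B K ρ then (1 : ℝ) else 0) := by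
  have h2 := Ex_mono (wq_nonneg h0 h1) (one_restr alg ω h G B v K D0 m rfl)
  rw [Ex_smul, Ex_add, Ex_add, Ex_add, Ex_smul, Ex_const (wq_sum p), Ex_smul, Ex_smul,
    Ex_sum] at h2
  have h3 : Ex (wq p) (fun ρ : Restr (Fin n × Fin n) =>
      unif (fun x => ((alg.adr ω h (toM G B (ov ρ x)) v).length : ℝ))) = lenE alg ω h v := by
    unfold lenE
    rw [mavg_eq G B]
    exact (unif_restr p (fun X => ((alg.adr ω h (toM G B X) v).length : ℝ))).symm
  have h4 : Ex (wq p) (fun ρ : Restr (Fin n × Fin n) =>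
      unif (fun x => if alg.ans ω h (toM G B (ov ρ x)) v =
        (toM G B (ov ρ x)).mulVec v then (1 : ℝ) else 0)) = rightE alg ω h v := by
    unfold rightE
    rw [mavg_eq G B]
    exact (unif_restr p (fun X => if alg.ans ω h (toM G B X) v =
        (toM G B X).mulVec v then (1 : ℝ) else 0)).symm
  rw [h3, h4] at h2
  exact h2

open Classical in
lemma avg_vec (alg : Alg n Ω A w) (ω : Ω) (h : List (Vec n)) (G : (Mat n)ˣ)
    (B : Fin n → (Mat n)ˣ) (K D0 s0 m : ℕ) {p : ℝ} (h0 : 0 ≤ p) (h1 : p ≤ 1) :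
    ((2 : ℝ) ^ n) * (-(((D0 * (n - m) : ℕ) : ℝ) * (1 / 2 ^ m + n * (2 ^ s0 * (1 - p / 2) ^ n +
      (n + 1) ^ D0 * 2 ^ (h.length + D0) / 2 ^ s0) +
      Ex (wq p) (fun ρ : Restr (Fin n × Fin n) =>
        if ¬ AllJunta alg ω h G B K ρ then (1 : ℝ) else 0)))) ≤
      ∑ v, (K * w * lenE alg ω h v - ((D0 * (n - m) : ℕ) : ℝ) * rightE alg ω h v) := by
  have hV : (Fintype.card (Vec n) : ℝ) = 2 ^ n := by
    rw [Fintype.card_fun, ZMod.card, Fintype.card_fin]
    push_cast
    rfl
  have hs := Finset.sum_le_sum (fun v (_ : v ∈ (univ : Finset (Vec n))) =>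
    avg_restr alg ω h G B v K D0 m h0 h1)
  set P : ℝ := ((D0 * (n - m) : ℕ) : ℝ) with hP
  have hP0 : 0 ≤ P := by positivity
  rw [Finset.sum_add_distrib, Finset.sum_add_distrib, Finset.sum_add_distrib, Finset.sum_const,
    Finset.card_univ, nsmul_eq_mul, hV, Finset.sum_const, Finset.card_univ, nsmul_eq_mul,
    hV] at hs
  have e3 : ∑ v : Vec n, P * ∑ r, Ex (wq p) (fun ρ : Restr (Fin n × Fin n) =>
        if BadRow B h D0 ρ v r then (1 : ℝ) else 0) = P * ∑ r, ∑ v : Vec n,
        Ex (wq p) (fun ρ : Restr (Fin n × Fin n) =>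
        if BadRow B h D0 ρ v r then (1 : ℝ) else 0) := by
    rw [← Finset.mul_sum, Finset.sum_comm]
  rw [e3] at hs
  have hr : ∀ r : Fin n, ∑ v : Vec n, Ex (wq p) (fun ρ : Restr (Fin n × Fin n) =>
        if BadRow B h D0 ρ v r then (1 : ℝ) else 0) ≤
      2 ^ n * (2 ^ s0 * (1 - p / 2) ^ n + (n + 1) ^ D0 * 2 ^ (h.length + D0) / 2 ^ s0) := by
    intro r
    rw [← Ex_sum]
    have hpt : ∀ ρ : Restr (Fin n × Fin n),
        ∑ v : Vec n, (if BadRow B h D0 ρ v r then (1 : ℝ) else 0) ≤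
        2 ^ n * (if (free ρ r).card < s0 then (1 : ℝ) else 0) +
        2 ^ n * ((n + 1) ^ D0 * 2 ^ (h.length + D0) / 2 ^ s0) := by
      intro ρ
      rw [Finset.sum_boole]
      by_cases hf : (free ρ r).card < s0
      · rw [if_pos hf, mul_one]
        have h3 : ((univ.filter (fun v : Vec n => BadRow B h D0 ρ v r)).card : ℝ) ≤
            2 ^ n := by
          rw [← hV]
          exact_mod_cast Finset.card_le_univ _
        have h4 : (0 : ℝ) ≤ 2 ^ n * ((n + 1) ^ D0 * 2 ^ (h.length + D0) / 2 ^ s0) := by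
          positivity
        linarith
      · rw [if_neg hf, mul_zero, zero_add]
        have h3 : (univ.filter (fun v : Vec n => BadRow B h D0 ρ v r)).card * 2 ^ s0 ≤
            (n + 1) ^ D0 * 2 ^ (h.length + D0) * 2 ^ n := by
          unfold BadRow
          convert card_not_avoid_mul (B r) (free ρ r) h D0 s0 (not_lt.1 hf)
        have h4 : ((univ.filter (fun v : Vec n => BadRow B h D0 ρ v r)).card : ℝ) *
            2 ^ s0 ≤ (n + 1) ^ D0 * 2 ^ (h.length + D0) * 2 ^ n := by
          exact_mod_cast h3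
        rw [← mul_div_assoc, le_div_iff₀ (by positivity)]
        linarith
    refine (Ex_mono (wq_nonneg h0 h1) hpt).trans ?_
    rw [Ex_add, Ex_smul, Ex_const (wq_sum p)]
    have h5 := few_free r h0 h1 s0
    have h6 : (0 : ℝ) < 2 ^ n := by positivity
    have h7 := mul_le_mul_of_nonneg_left h5 h6.le
    linarith
  have hr' := Finset.sum_le_sum (fun r (_ : r ∈ (univ : Finset (Fin n))) => hr r)
  rw [Finset.sum_const, Finset.card_univ, Fintype.card_fin, nsmul_eq_mul] at hr'
  have hr'' := mul_le_mul_of_nonneg_left hr' hP0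
  rw [Finset.sum_sub_distrib]
  linarith

/-- under a random restriction all memory bits become juntas -/
lemma bad_le [Fintype A] (alg : Alg n Ω A w) (ω : Ω) (h : List (Vec n)) (G : (Mat n)ˣ)
    (B : Fin n → (Mat n)ˣ) {d s : ℕ}
    (hDS : ∀ (a : A) (i : Fin w), ∃ C : DomAC0.Circuit (Fin n × Fin n),
      C.size ≤ s ∧ C.depth ≤ d ∧ ∀ M : Mat n, alg.mem ω h M a i = C.eval (coord G B M))
    {q : ℝ} (h0 : 0 ≤ q) (h1 : q ≤ 1 / 3) {k : ℕ} (hk : 1 ≤ k) :
    open Classical in
    Ex (wq (q ^ d)) (fun ρ : Restr (Fin n × Fin n) =>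
        if ¬ AllJunta alg ω h G B (KK k d) ρ then (1 : ℝ) else 0) ≤
      (Fintype.card A * w : ℕ) * (d * ((s * (n * n + s + 1) : ℕ) : ℝ) *
        (4 ^ (KK k d) * (3 * q)) ^ k) := by
  classical
  choose C hCs hCd hCe using hDS
  have hσ : ∀ j : Fin n × Fin n, Junta 1 (fun x : Fin n × Fin n → Bool => (id x) j) := by
    intro j
    refine ⟨{j}, by simp, ?_⟩
    intro x y hxy
    exact hxy j (Finset.mem_singleton_self j)
  have hp0 : 0 ≤ q ^ d := pow_nonneg h0 d
  have hp1 : q ^ d ≤ 1 := pow_le_one₀ h0 (by linarith)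
  have hpt : ∀ ρ : Restr (Fin n × Fin n),
      (if ¬ AllJunta alg ω h G B (KK k d) ρ then (1 : ℝ) else 0) ≤
      ∑ ai : A × Fin w, (if ¬ Good (C ai.1 ai.2) id k d ρ then (1 : ℝ) else 0) := by
    intro ρ
    have hnn : ∀ ai ∈ (univ : Finset (A × Fin w)),
        (0 : ℝ) ≤ (if ¬ Good (C ai.1 ai.2) id k d ρ then (1 : ℝ) else 0) := by
      intro ai _
      split_ifs <;> norm_num
    by_cases hg : AllJunta alg ω h G B (KK k d) ρ
    · rw [if_neg (not_not.2 hg)]
      exact Finset.sum_nonneg hnn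
    · rw [if_pos hg]
      have hex : ∃ a i, ¬ Good (C a i) id k d ρ := by
        by_contra hcon
        apply hg
        intro a i
        have hG : Good (C a i) id k d ρ := by
          by_contra h3
          exact hcon ⟨a, i, h3⟩
        have h4 := node_junta (C a i) id hσ hk hG (C a i).output (hCd a i)
        have h5 : (fun X => alg.mem ω h (toM G B X) a i) =
            fun x => (C a i).nodeVal (id x) (C a i).output := by
          funext X
          rw [hCe a i (toM G B X), coord_toM]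
          rfl
        rw [h5]
        exact h4
      obtain ⟨a, i, hai⟩ := hex
      refine le_trans ?_ (Finset.single_le_sum hnn (Finset.mem_univ (a, i)))
      rw [if_pos hai]
  refine (Ex_mono (wq_nonneg hp0 hp1) hpt).trans ?_
  rw [Ex_sum]
  have hone : ∀ ai ∈ (univ : Finset (A × Fin w)),
      Ex (wq (q ^ d)) (fun ρ : Restr (Fin n × Fin n) =>
        if ¬ Good (C ai.1 ai.2) id k d ρ then (1 : ℝ) else 0) ≤
      d * ((s * (n * n + s + 1) : ℕ) : ℝ) * (4 ^ (KK k d) * (3 * q)) ^ k := by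
    intro ai _
    refine (collapse (C ai.1 ai.2) id hσ h0 h1 hk d d le_rfl).trans ?_
    apply mul_le_mul_of_nonneg_right _ (by positivity)
    apply mul_le_mul_of_nonneg_left _ (by positivity)
    have h6 := hCs ai.1 ai.2
    have h7 : Fintype.card (Fin n × Fin n) = n * n := by simp
    rw [h7]
    exact_mod_cast Nat.mul_le_mul h6 (by omega)
  refine (Finset.sum_le_card_nsmul _ _ _ hone).trans ?_
  rw [nsmul_eq_mul, Finset.card_univ, Fintype.card_prod, Fintype.card_fin]

end Pool.Agent.TH163.AC2
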