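import Pool.Agent.H699R2.OMV.Model
import Pool.Agent.H568R2.Defs

/-!
# Online matrix-vector multiplication over `ZMod 2` with memory of constant depth

The cell-probe model of the starting library `Pool/Agent/H699R2/OMV/Model.lean`, in which the
programs moreover know the earlier answers. The content of the memory is computed by Boolean
circuits of constant depth from `n * n` linearly independent linear forms of the matrix, `n` of them
for every row of `G * M`.
-/

set_option autoImplicit false

namespace Pool.Agent.TH163.AC2

open Pool.Agent.H699R2.OMV (Prog Vec Mat IsProb before avg)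

/-- A randomised algorithm for online matrix-vector multiplication over `ZMod 2` in the cell-probe
model with cells of `w` bits. `Ω` is the set of outcomes of its coins, `A` the set of addresses.
`mem ω h M` is the content of the memory when the vectors in the list `h` have been processed, and
`prog ω h y v` is the program run on the next vector `v`; here `h` is the list of the earlier
vectors and `y` the list of the earlier (correct) products. -/
structure Alg (n : ℕ) (Ω A : Type) (w : ℕ) where
  mem : Ω → List (Vec n) → Mat n → A → Fin w → Bool
  prog : Ω → List (Vec n) → List (Vec n) → Vec n → Prog A (Fin w → Bool) (Vec n)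

/-- The bits of `M` in the coordinates given by `G` and `B`: the bit `(r, j)` is the entry `(r, j)`
of `G * M * B r`. For `G = 1` and `B r = 1` these are the entries of `M`. -/
def coord {n : ℕ} (G : (Mat n)ˣ) (B : Fin n → (Mat n)ˣ) (M : Mat n) (e : Fin n × Fin n) : Bool :=
  decide (((G : Mat n) * M * (B e.1 : Mat n)) e.1 e.2 = 1)

namespace Alg

variable {n : ℕ} {Ω A : Type} {w : ℕ}

/-- The answer to the vector `v` after the vectors in `h`. -/
def ans (alg : Alg n Ω A w) (ω : Ω) (h : List (Vec n)) (M : Mat n) (v : Vec n) : Vec n :=
  (alg.prog ω h (h.map M.mulVec) v).out (alg.mem ω h M)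

/-- The addresses probed for the vector `v` after the vectors in `h`. -/
def adr (alg : Alg n Ω A w) (ω : Ω) (h : List (Vec n)) (M : Mat n) (v : Vec n) : List A :=
  (alg.prog ω h (h.map M.mulVec) v).addrs (alg.mem ω h M)

/-- The answer to the `q`-th vector of the stream `vs`. -/
def answer (alg : Alg n Ω A w) (ω : Ω) (M : Mat n) (vs : Fin n → Vec n) (q : Fin n) : Vec n :=
  alg.ans ω (before vs q) M (vs q)

/-- The addresses probed while the `q`-th vector of the stream `vs` is processed. -/
def probes (alg : Alg n Ω A w) (ω : Ω) (M : Mat n) (vs : Fin n → Vec n) (q : Fin n) : List A :=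
  alg.adr ω (before vs q) M (vs q)

/-- For given coins and earlier vectors there are coordinates (invertible matrices `G` and `B r`)
in which every bit of every cell is computed from the `n * n` bits of the matrix by a circuit
with at most `s` gates (AND, OR of unbounded fan-in, NOT) of depth at most `d`. -/
def DepthSize (alg : Alg n Ω A w) (d s : ℕ) : Prop :=
  ∀ (ω : Ω) (h : List (Vec n)), ∃ (G : (Mat n)ˣ) (B : Fin n → (Mat n)ˣ), ∀ (a : A) (i : Fin w),
    ∃ C : DomAC0.Circuit (Fin n × Fin n),
      C.size ≤ s ∧ C.depth ≤ d ∧ ∀ M : Mat n, alg.mem ω h M a i = C.eval (coord G B M)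

/-- On every input, each single answer is right with probability at least `γ`. -/
def Solves [Fintype Ω] (alg : Alg n Ω A w) (μ : Ω → ℝ) (γ : ℝ) : Prop :=
  ∀ (M : Mat n) (vs : Fin n → Vec n) (q : Fin n), γ ≤
    ∑ ω, μ ω * (if alg.answer ω M vs q = M.mulVec (vs q) then (1 : ℝ) else 0)

/-- On a uniformly random input (a matrix and a stream of `n` vectors), each single answer is right
with probability at least `γ`. -/
def Right [Fintype Ω] (alg : Alg n Ω A w) (μ : Ω → ℝ) (γ : ℝ) : Prop :=
  ∀ q : Fin n, γ ≤ avg (fun M vs =>
    ∑ ω, μ ω * (if alg.answer ω M vs q = M.mulVec (vs q) then (1 : ℝ) else 0))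

end Alg

end Pool.Agent.TH163.AC2
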