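import Pool.Agent.TH163.AC2.Model
import Pool.Agent.H568R2.Collapse

/-!
# Runs of an algorithm and changes of coordinates
-/

set_option autoImplicit false

namespace Pool.Agent.TH163.AC2

open Finset H568R2
open Pool.Agent.H699R2.OMV (Prog Vec Mat IsProb before avg)

variable {n : ℕ}

/-! ### coordinates -/

/-- the matrix with the given bits -/
def toMat (X : Fin n × Fin n → Bool) : Mat n := fun r c => if X (r, c) = true then 1 else 0

/-- the matrix whose bits in the coordinates `G`, `B` are given -/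
def toM (G : (Mat n)ˣ) (B : Fin n → (Mat n)ˣ) (X : Fin n × Fin n → Bool) : Mat n :=
  (↑G⁻¹ : Mat n) * (Matrix.of fun r c => (toMat X * (↑(B r)⁻¹ : Mat n)) r c)

/-- the product, in the coordinates `G`, `B` -/
def gm (B : Fin n → (Mat n)ˣ) (X : Fin n × Fin n → Bool) (v : Vec n) : Vec n :=
  fun r => (toMat X).mulVec ((↑(B r)⁻¹ : Mat n).mulVec v) r

lemma coord_toM (G : (Mat n)ˣ) (B : Fin n → (Mat n)ˣ) (X : Fin n × Fin n → Bool) :
    coord G B (toM G B X) = X := by
  funext e
  have h1 : ((G : Mat n) * toM G B X * (B e.1 : Mat n)) e.1 e.2 = toMat X e.1 e.2 := by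
    unfold toM
    rw [← Matrix.mul_assoc (G : Mat n), Units.mul_inv, Matrix.one_mul, Matrix.mul_apply]
    have h2 : ∑ j, (Matrix.of fun r c => (toMat X * (↑(B r)⁻¹ : Mat n)) r c) e.1 j *
        (B e.1 : Mat n) j e.2 = (toMat X * (↑(B e.1)⁻¹ : Mat n) * (B e.1 : Mat n)) e.1 e.2 := by
      rw [Matrix.mul_apply (M := toMat X * (↑(B e.1)⁻¹ : Mat n))]
      rfl
    rw [h2, Matrix.mul_assoc, Units.inv_mul, Matrix.mul_one]
  unfold coord
  rw [h1]
  show decide ((if X e = true then (1 : ZMod 2) else 0) = 1) = X e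
  rcases h : X e with _ | _ <;> simp

lemma toM_coord (G : (Mat n)ˣ) (B : Fin n → (Mat n)ˣ) (M : Mat n) :
    toM G B (coord G B M) = M := by
  have hbit : ∀ a : ZMod 2, (if decide (a = 1) = true then (1 : ZMod 2) else 0) = a := by decide
  have h1 : (Matrix.of fun r c => (toMat (coord G B M) * (↑(B r)⁻¹ : Mat n)) r c) =
      (G : Mat n) * M := by
    funext r c
    show (toMat (coord G B M) * (↑(B r)⁻¹ : Mat n)) r c = ((G : Mat n) * M) r c
    rw [Matrix.mul_apply]
    have h2 : ∀ j, toMat (coord G B M) r j = ((G : Mat n) * M * (B r : Mat n)) r j :=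
      fun j => hbit _
    simp only [h2]
    rw [← Matrix.mul_apply (M := (G : Mat n) * M * (B r : Mat n)), Matrix.mul_assoc,
      Units.mul_inv, Matrix.mul_one]
  unfold toM
  rw [h1, ← Matrix.mul_assoc, Units.inv_mul, Matrix.one_mul]

/-- matrices and their bits -/
def matEquiv (G : (Mat n)ˣ) (B : Fin n → (Mat n)ˣ) : (Fin n × Fin n → Bool) ≃ Mat n where
  toFun := toM G B
  invFun := coord G B
  left_inv := coord_toM G B
  right_inv := toM_coord G B

lemma toM_mulVec (G : (Mat n)ˣ) (B : Fin n → (Mat n)ˣ) (X : Fin n × Fin n → Bool) (v : Vec n) :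
    (toM G B X).mulVec v = (↑G⁻¹ : Mat n).mulVec (gm B X v) := by
  unfold toM
  rw [← Matrix.mulVec_mulVec]
  congr 1
  funext r
  show (Matrix.of fun r c => (toMat X * (↑(B r)⁻¹ : Mat n)) r c).mulVec v r =
    (toMat X).mulVec ((↑(B r)⁻¹ : Mat n).mulVec v) r
  rw [Matrix.mulVec_mulVec]
  rfl

lemma gm_eq (G : (Mat n)ˣ) (B : Fin n → (Mat n)ˣ) (X : Fin n × Fin n → Bool) (v : Vec n) :
    gm B X v = (G : Mat n).mulVec ((toM G B X).mulVec v) := by
  rw [toM_mulVec, Matrix.mulVec_mulVec, Units.mul_inv, Matrix.one_mulVec]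

/-! ### flips -/

/-- flip the bits given by `u` -/
def flp (u : Fin n → Fin n → Bool) (x : Fin n × Fin n → Bool) : Fin n × Fin n → Bool :=
  fun e => if u e.1 e.2 = true then !x e else x e

lemma flp_flp (u : Fin n → Fin n → Bool) (x : Fin n × Fin n → Bool) :
    flp u (flp u x) = x := by
  funext e
  unfold flp
  by_cases h : u e.1 e.2 = true
  · simp only [h, if_true, Bool.not_not]
  · simp only [h]
    rfl

/-- the inner product of a set of columns and a vector -/
def dz (u : Fin n → Bool) (z : Vec n) : ZMod 2 := ∑ c, if u c = true then z c else 0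

lemma toMat_flp (ρ : Restr (Fin n × Fin n)) (u : Fin n → Fin n → Bool)
    (hu : ∀ r c, u r c = true → ρ (r, c) = none) (x : Fin n × Fin n → Bool) (r c : Fin n) :
    toMat (ov ρ (flp u x)) r c = toMat (ov ρ x) r c + if u r c = true then 1 else 0 := by
  unfold toMat
  by_cases h : u r c = true
  · have h1 : ρ (r, c) = none := hu r c h
    have h2 : ov ρ (flp u x) (r, c) = !x (r, c) := by
      unfold ov flp
      rw [h1]
      simp [h]
    have h3 : ov ρ x (r, c) = x (r, c) := by
      unfold ov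
      rw [h1]
      rfl
    rw [h2, h3, if_pos h]
    rcases x (r, c) with _ | _ <;> decide
  · have h2 : ov ρ (flp u x) (r, c) = ov ρ x (r, c) := by
      unfold ov flp
      congr 1
      rw [if_neg h]
    rw [h2, if_neg h, add_zero]

lemma mulVec_flp (ρ : Restr (Fin n × Fin n)) (u : Fin n → Fin n → Bool)
    (hu : ∀ r c, u r c = true → ρ (r, c) = none) (x : Fin n × Fin n → Bool) (z : Vec n)
    (r : Fin n) :
    (toMat (ov ρ (flp u x))).mulVec z r = (toMat (ov ρ x)).mulVec z r + dz (u r) z := by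
  unfold Matrix.mulVec dotProduct
  simp only [toMat_flp ρ u hu, add_mul, Finset.sum_add_distrib]
  congr 1
  unfold dz
  apply Finset.sum_congr rfl
  intro c _
  split_ifs <;> simp

lemma gm_flp (B : Fin n → (Mat n)ˣ) (ρ : Restr (Fin n × Fin n)) (u : Fin n → Fin n → Bool)
    (hu : ∀ r c, u r c = true → ρ (r, c) = none) (x : Fin n × Fin n → Bool) (z : Vec n)
    (r : Fin n) :
    gm B (ov ρ (flp u x)) z r = gm B (ov ρ x) z r + dz (u r) ((↑(B r)⁻¹ : Mat n).mulVec z) :=
  mulVec_flp ρ u hu x _ r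

/-! ### runs -/

lemma run_congr {A W O : Type} (P : Prog A W O) (m m' : A → W)
    (h : ∀ a ∈ P.addrs m, m' a = m a) : P.out m' = P.out m ∧ P.addrs m' = P.addrs m := by
  induction P with
  | done o => exact ⟨rfl, rfl⟩
  | probe a k ih =>
    have ha : m' a = m a := h a (by simp [Prog.addrs])
    show (k (m' a)).out m' = (k (m a)).out m ∧
      a :: (k (m' a)).addrs m' = a :: (k (m a)).addrs m
    rw [ha]
    have := ih (m a) (fun b hb => h b (by simp [Prog.addrs, hb]))
    exact ⟨this.1, by rw [this.2]⟩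

section core

variable {Ω A : Type} {w : ℕ}

/-- the columns of row `r` on which the probed cells depend -/
noncomputable def rd (alg : Alg n Ω A w) (ω : Ω) (h : List (Vec n)) (G : (Mat n)ˣ)
    (B : Fin n → (Mat n)ˣ) (ρ : Restr (Fin n × Fin n))
    (J : A → Fin w → Finset (Fin n × Fin n)) (v : Vec n) (x : Fin n × Fin n → Bool)
    (r : Fin n) : Finset (Fin n) :=
  open Classical in
  univ.filter (fun c => ∃ a ∈ alg.adr ω h (toM G B (ov ρ x)) v, ∃ i, (r, c) ∈ J a i)

variable (alg : Alg n Ω A w) (ω : Ω) (h : List (Vec n)) (G : (Mat n)ˣ)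
    (B : Fin n → (Mat n)ˣ) (ρ : Restr (Fin n × Fin n))
    (J : A → Fin w → Finset (Fin n × Fin n)) (v : Vec n)

lemma flp_run (hJ : ∀ a i, DepOn (rs (fun X => alg.mem ω h (toM G B X) a i) ρ) (J a i))
    (u : Fin n → Fin n → Bool) (x : Fin n × Fin n → Bool)
    (hu1 : ∀ r c, u r c = true → ρ (r, c) = none)
    (hu2 : ∀ r c, u r c = true → c ∉ rd alg ω h G B ρ J v x r)
    (hu3 : ∀ r, ∀ z ∈ h, dz (u r) ((↑(B r)⁻¹ : Mat n).mulVec z) = 0) :
    alg.ans ω h (toM G B (ov ρ (flp u x))) v = alg.ans ω h (toM G B (ov ρ x)) v ∧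
      alg.adr ω h (toM G B (ov ρ (flp u x))) v = alg.adr ω h (toM G B (ov ρ x)) v := by
  have h1 : h.map (toM G B (ov ρ (flp u x))).mulVec = h.map (toM G B (ov ρ x)).mulVec := by
    apply List.map_congr_left
    intro z hz
    rw [toM_mulVec, toM_mulVec]
    congr 1
    funext r
    rw [gm_flp B ρ u hu1, hu3 r z hz, add_zero]
  unfold Alg.ans Alg.adr
  rw [h1]
  apply run_congr
  intro a ha
  funext i
  apply hJ a i
  intro e he
  unfold flp
  rw [if_neg]
  intro h3
  apply hu2 e.1 e.2 h3
  unfold rd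
  rw [Finset.mem_filter]
  exact ⟨Finset.mem_univ _, a, ha, i, he⟩

/-- the rows of which few columns have been read -/
noncomputable def rw' (D0 : ℕ) (x : Fin n × Fin n → Bool) : Finset (Fin n) :=
  univ.filter (fun r => (rd alg ω h G B ρ J v x r).card < D0)

/-- **the main counting lemma**: if few columns of many rows have been read, the answer is
hardly ever right -/
lemma card_right (hJ : ∀ a i, DepOn (rs (fun X => alg.mem ω h (toM G B X) a i) ρ) (J a i))
    (D0 m : ℕ)
    (hP : ∀ (r : Fin n) (D : Finset (Fin n)), D.card < D0 → ∃ u : Fin n → Bool,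
      (∀ c, u c = true → ρ (r, c) = none) ∧ (∀ c, u c = true → c ∉ D) ∧
      (∀ z ∈ h, dz u ((↑(B r)⁻¹ : Mat n).mulVec z) = 0) ∧
      dz u ((↑(B r)⁻¹ : Mat n).mulVec v) = 1) :
    2 ^ m * (univ.filter (fun x => alg.ans ω h (toM G B (ov ρ x)) v =
        (toM G B (ov ρ x)).mulVec v ∧ m ≤ (rw' alg ω h G B ρ J v D0 x).card)).card ≤
      Fintype.card (Fin n × Fin n → Bool) := by
  classical
  choose! u hu1 hu2 hu3 hu4 using hP
  set Rw := rw' alg ω h G B ρ J v D0 with hRw
  let uu : (Fin n × Fin n → Bool) → Finset (Fin n) → Fin n → Fin n → Bool :=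
    fun x T r c => decide (r ∈ T) && u r (rd alg ω h G B ρ J v x r) c
  have huu : ∀ x T r c, uu x T r c = true → r ∈ T ∧ u r (rd alg ω h G B ρ J v x r) c = true := by
    intro x T r c hx
    simpa [uu] using hx
  have hrow0 : ∀ x T r, r ∉ T → uu x T r = fun _ => false := by
    intro x T r hr
    funext c
    simp [uu, hr]
  have hrow1 : ∀ x T r, r ∈ T → uu x T r = u r (rd alg ω h G B ρ J v x r) := by
    intro x T r hr
    funext c
    simp [uu, hr]
  have hlt : ∀ x T r, T ⊆ Rw x → r ∈ T → (rd alg ω h G B ρ J v x r).card < D0 := by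
    intro x T r hT hr
    have := hT hr
    rw [hRw] at this
    unfold rw' at this
    exact (Finset.mem_filter.1 this).2
  have hz0 : ∀ z : Vec n, dz (fun _ => false) z = 0 := by
    intro z
    unfold dz
    simp
  let φ : (Fin n × Fin n → Bool) → Finset (Fin n) → (Fin n × Fin n → Bool) :=
    fun x T => flp (uu x T) x
  have hu1' : ∀ x T, T ⊆ Rw x → ∀ r c, uu x T r c = true → ρ (r, c) = none := by
    intro x T hT r c hx
    obtain ⟨h1, h2⟩ := huu x T r c hx
    exact hu1 r _ (hlt x T r hT h1) c h2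
  have key : ∀ x T, T ⊆ Rw x →
      alg.ans ω h (toM G B (ov ρ (φ x T))) v = alg.ans ω h (toM G B (ov ρ x)) v ∧
      alg.adr ω h (toM G B (ov ρ (φ x T))) v = alg.adr ω h (toM G B (ov ρ x)) v := by
    intro x T hT
    apply flp_run alg ω h G B ρ J v hJ (uu x T) x (hu1' x T hT)
    · intro r c hx
      obtain ⟨h1, h2⟩ := huu x T r c hx
      exact hu2 r _ (hlt x T r hT h1) c h2
    · intro r z hz
      by_cases hr : r ∈ T
      · rw [hrow1 x T r hr]
        exact hu3 r _ (hlt x T r hT hr) z hz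
      · rw [hrow0 x T r hr, hz0]
  have hrd : ∀ x T, T ⊆ Rw x → rd alg ω h G B ρ J v (φ x T) = rd alg ω h G B ρ J v x := by
    intro x T hT
    funext r
    unfold rd
    rw [(key x T hT).2]
  have hgm : ∀ x T, T ⊆ Rw x → ∀ r, gm B (ov ρ (φ x T)) v r =
      gm B (ov ρ x) v r + if r ∈ T then 1 else 0 := by
    intro x T hT r
    show gm B (ov ρ (flp (uu x T) x)) v r = _
    rw [gm_flp B ρ _ (hu1' x T hT)]
    congr 1
    by_cases hr : r ∈ T
    · rw [hrow1 x T r hr, if_pos hr]
      exact hu4 r _ (hlt x T r hT hr)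
    · rw [hrow0 x T r hr, if_neg hr, hz0]
  set S := univ.filter (fun x => alg.ans ω h (toM G B (ov ρ x)) v =
        (toM G B (ov ρ x)).mulVec v ∧ m ≤ (Rw x).card) with hS
  have hcard : (S.sigma (fun x => (Rw x).powerset)).card ≤
      (univ : Finset (Fin n × Fin n → Bool)).card := by
    apply Finset.card_le_card_of_injOn (fun p => φ p.1 p.2)
    · intro p _
      exact Finset.mem_coe.2 (Finset.mem_univ _)
    · rintro ⟨x, T⟩ hx ⟨x', T'⟩ hx' hxx
      have hx1 : ((⟨x, T⟩ : (_ : Fin n × Fin n → Bool) × Finset (Fin n))) ∈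
        S.sigma (fun x => (Rw x).powerset) := hx
      have hx1' : ((⟨x', T'⟩ : (_ : Fin n × Fin n → Bool) × Finset (Fin n))) ∈
        S.sigma (fun x => (Rw x).powerset) := hx'
      rw [Finset.mem_sigma, Finset.mem_powerset, hS, Finset.mem_filter] at hx1 hx1'
      obtain ⟨⟨_, hr, _⟩, hT⟩ := hx1
      obtain ⟨⟨_, hr', _⟩, hT'⟩ := hx1'
      simp only at hT hT' hr hr'
      have hxx' : φ x T = φ x' T' := hxx
      have e1 : rd alg ω h G B ρ J v x = rd alg ω h G B ρ J v x' := by
        rw [← hrd x T hT, ← hrd x' T' hT', hxx']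
      have e2 : alg.ans ω h (toM G B (ov ρ x)) v = alg.ans ω h (toM G B (ov ρ x')) v := by
        rw [← (key x T hT).1, ← (key x' T' hT').1, hxx']
      have e3 : gm B (ov ρ x) v = gm B (ov ρ x') v := by
        rw [gm_eq G, gm_eq G, ← hr, ← hr', e2]
      have e4 : T = T' := by
        ext r
        have h1 := hgm x T hT r
        have h2 := hgm x' T' hT' r
        rw [hxx', h2, e3] at h1
        have h3 := add_left_cancel h1
        by_cases ha : r ∈ T <;> by_cases hb : r ∈ T'
        · exact ⟨fun _ => hb, fun _ => ha⟩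
        · rw [if_pos ha, if_neg hb] at h3
          exact absurd h3 (by decide)
        · rw [if_neg ha, if_pos hb] at h3
          exact absurd h3 (by decide)
        · exact ⟨fun h => absurd h ha, fun h => absurd h hb⟩
      have e5 : uu x T = uu x' T' := by
        funext r c
        show (decide (r ∈ T) && u r (rd alg ω h G B ρ J v x r) c) =
          (decide (r ∈ T') && u r (rd alg ω h G B ρ J v x' r) c)
        rw [e1, e4]
      have e6 : x = x' := by
        have h1 : flp (uu x T) (φ x T) = x := flp_flp _ x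
        have h2 : flp (uu x' T') (φ x' T') = x' := flp_flp _ x'
        rw [← h1, ← h2, e5, hxx']
      subst e6
      subst e4
      rfl
  rw [Finset.card_sigma, Finset.card_univ] at hcard
  refine le_trans ?_ hcard
  rw [mul_comm, ← smul_eq_mul, ← Finset.sum_const]
  apply Finset.sum_le_sum
  intro x hx
  rw [Finset.card_powerset]
  apply Nat.pow_le_pow_right (by norm_num)
  rw [hS, Finset.mem_filter] at hx
  exact hx.2.2

end core

end Pool.Agent.TH163.AC2
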