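import Pool.Agent.TH163.AC2.Run

/-!
# Vectors that are orthogonal to few sets of columns
-/

set_option autoImplicit false

namespace Pool.Agent.TH163.AC2

open Finset
open Pool.Agent.H699R2.OMV (Vec Mat)

variable {n : ℕ}

/-- the vector `z` with the coordinates outside `T` deleted -/
def cut (T : Finset (Fin n)) : Vec n →ₗ[ZMod 2] Vec n where
  toFun z := fun c => if c ∈ T then z c else 0
  map_add' x y := by
    funext c
    show (if c ∈ T then x c + y c else 0) = (if c ∈ T then x c else 0) + if c ∈ T then y c else 0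
    split_ifs <;> simp
  map_smul' a x := by
    funext c
    show (if c ∈ T then a * x c else 0) = a * (if c ∈ T then x c else 0)
    split_ifs <;> simp

lemma cut_apply (T : Finset (Fin n)) (z : Vec n) (c : Fin n) :
    cut T z c = if c ∈ T then z c else 0 := rfl

/-- the span of the vectors of the list `h`, cut to `T` -/
def cutSpan (T : Finset (Fin n)) (h : List (Vec n)) : Submodule (ZMod 2) (Vec n) :=
  Submodule.span (ZMod 2) (Set.range (fun i : Fin h.length => cut T (h.get i)))

lemma card_cutSpan (T : Finset (Fin n)) (h : List (Vec n)) :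
    Nat.card (cutSpan T h) ≤ 2 ^ h.length := by
  have h1 : Nat.card (cutSpan T h) = Nat.card (ZMod 2) ^ Module.finrank (ZMod 2) (cutSpan T h) :=
    Module.natCard_eq_pow_finrank
  rw [h1, Nat.card_zmod]
  apply Nat.pow_le_pow_right (by norm_num)
  have := finrank_range_le_card (R := ZMod 2) (fun i : Fin h.length => cut T (h.get i))
  rw [Fintype.card_fin] at this
  exact this

lemma exists_dz (T : Finset (Fin n)) (h : List (Vec n)) (v : Vec n) (hv : cut T v ∉ cutSpan T h) :
    ∃ u : Fin n → Bool, (∀ c, u c = true → c ∈ T) ∧ (∀ z ∈ h, dz u z = 0) ∧ dz u v = 1 := by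
  classical
  obtain ⟨f, hf1, hf2⟩ := Submodule.exists_le_ker_of_notMem hv
  have hbit : ∀ a : ZMod 2, a = 0 ∨ a = 1 := by decide
  have hdz : ∀ z : Vec n, dz (fun c => decide (c ∈ T ∧ f (Pi.single c 1) = 1)) z = f (cut T z) := by
    intro z
    have h1 : cut T z = ∑ c, (cut T z c) • (Pi.single c (1 : ZMod 2) : Vec n) := by
      funext c'
      rw [Finset.sum_apply]
      simp [Pi.single_apply]
    rw [h1, map_sum]
    unfold dz
    apply Finset.sum_congr rfl
    intro c _
    rw [map_smul, cut_apply, smul_eq_mul]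
    by_cases hc : c ∈ T
    · rw [if_pos hc]
      rcases hbit (f (Pi.single c 1)) with h2 | h2
      · simp [h2]
      · simp [h2, hc]
    · simp [hc]
  refine ⟨fun c => decide (c ∈ T ∧ f (Pi.single c 1) = 1), ?_, ?_, ?_⟩
  · intro c hc
    exact (of_decide_eq_true hc).1
  · intro z hz
    rw [hdz]
    have h3 : cut T z ∈ cutSpan T h := by
      obtain ⟨i, rfl⟩ := List.get_of_mem hz
      exact Submodule.subset_span ⟨i, rfl⟩
    exact hf2 h3
  · rw [hdz]
    rcases hbit (f (cut T v)) with h4 | h4
    · exact absurd h4 hf1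
    · exact h4

/-- the number of vectors whose cut to `T` lies in the span -/
lemma card_cut_mem (T : Finset (Fin n)) (h : List (Vec n)) :
    Nat.card {v : Vec n // cut T v ∈ cutSpan T h} * 2 ^ T.card ≤ 2 ^ h.length * 2 ^ n := by
  classical
  have h1 : Nat.card {v : Vec n // cut T v ∈ cutSpan T h} ≤
      Nat.card (cutSpan T h × ({c : Fin n // c ∉ T} → ZMod 2)) := by
    apply Nat.card_le_card_of_injective
      (fun v : {v : Vec n // cut T v ∈ cutSpan T h} =>
        ((⟨cut T v.1, v.2⟩, fun c => v.1 c.1) : cutSpan T h × ({c : Fin n // c ∉ T} → ZMod 2)))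
    intro v v' hvv
    have h2 := congrArg Prod.fst hvv
    have h3 := congrArg Prod.snd hvv
    have h2' : cut T v.1 = cut T v'.1 := congrArg Subtype.val h2
    apply Subtype.ext
    funext c
    by_cases hc : c ∈ T
    · have := congrFun h2' c
      rw [cut_apply, cut_apply, if_pos hc, if_pos hc] at this
      exact this
    · exact congrFun h3 ⟨c, hc⟩
  have h4 : Nat.card (cutSpan T h × ({c : Fin n // c ∉ T} → ZMod 2)) =
      Nat.card (cutSpan T h) * 2 ^ (n - T.card) := by
    rw [Nat.card_prod]
    congr 1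
    rw [Nat.card_eq_fintype_card, Fintype.card_fun, ZMod.card]
    congr 1
    rw [Fintype.card_subtype_compl]
    simp
  have h5 : T.card ≤ n := by
    have := Finset.card_le_univ T
    rwa [Fintype.card_fin] at this
  calc Nat.card {v : Vec n // cut T v ∈ cutSpan T h} * 2 ^ T.card
      ≤ (Nat.card (cutSpan T h) * 2 ^ (n - T.card)) * 2 ^ T.card := by
        apply Nat.mul_le_mul_right
        rw [← h4]
        exact h1
    _ ≤ (2 ^ h.length * 2 ^ (n - T.card)) * 2 ^ T.card := by
        apply Nat.mul_le_mul_right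
        apply Nat.mul_le_mul_right
        exact card_cutSpan T h
    _ = 2 ^ h.length * 2 ^ n := by
        rw [mul_assoc, ← pow_add]
        congr 2
        omega

/-- the property of `v` for the set `S` of columns: every set of fewer than `D0` columns can be
avoided -/
def Avoid (S : Finset (Fin n)) (h : List (Vec n)) (D0 : ℕ) (v : Vec n) : Prop :=
  ∀ D : Finset (Fin n), D.card < D0 → ∃ u : Fin n → Bool,
    (∀ c, u c = true → c ∈ S) ∧ (∀ c, u c = true → c ∉ D) ∧ (∀ z ∈ h, dz u z = 0) ∧ dz u v = 1

open Classical in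
/-- few vectors fail to have the property -/
lemma card_not_avoid (S : Finset (Fin n)) (h : List (Vec n)) (D0 s0 : ℕ) (hS : s0 ≤ S.card) :
    (univ.filter (fun v : Vec n => ¬ Avoid S h D0 v)).card * 2 ^ s0 ≤
      (n + 1) ^ D0 * 2 ^ (h.length + D0) * 2 ^ n := by
  let set' : (Fin D0 → Option (Fin n)) → Finset (Fin n) :=
    fun g => univ.filter (fun c => ∃ i, g i = some c)
  have hsurj : ∀ D : Finset (Fin n), D.card < D0 → ∃ g, set' g = D := by
    intro D hD
    refine ⟨fun i => if hi : i.1 < D.card then some (D.equivFin.symm ⟨i.1, hi⟩).1 else none, ?_⟩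
    ext c
    simp only [set', Finset.mem_filter, Finset.mem_univ, true_and]
    constructor
    · rintro ⟨i, hi⟩
      split_ifs at hi with h1
      · injection hi with hi
        rw [← hi]
        exact (D.equivFin.symm ⟨i.1, h1⟩).2
    · intro hc
      have h2 := (D.equivFin ⟨c, hc⟩).2
      refine ⟨⟨(D.equivFin ⟨c, hc⟩).1, by omega⟩, ?_⟩
      rw [dif_pos h2]
      simp
  have hcardset : ∀ g, (set' g).card ≤ D0 := by
    intro g
    have h1 : set' g ⊆ (univ : Finset (Fin D0)).biUnion (fun i => (g i).toFinset) := by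
      intro c hc
      simp only [set', Finset.mem_filter, Finset.mem_univ, true_and] at hc
      obtain ⟨i, hi⟩ := hc
      rw [Finset.mem_biUnion]
      exact ⟨i, Finset.mem_univ _, by rw [hi]; simp⟩
    refine (Finset.card_le_card h1).trans ?_
    refine Finset.card_biUnion_le.trans ?_
    calc ∑ i : Fin D0, ((g i).toFinset).card ≤ ∑ _i : Fin D0, 1 := by
          apply Finset.sum_le_sum
          intro i _
          rcases g i with _ | c <;> simp
      _ = D0 := by simp
  have hsub : univ.filter (fun v : Vec n => ¬ Avoid S h D0 v) ⊆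
      (univ : Finset (Fin D0 → Option (Fin n))).biUnion
        (fun g => univ.filter (fun v : Vec n => cut (S \ set' g) v ∈ cutSpan (S \ set' g) h)) := by
    intro v hv
    rw [Finset.mem_filter] at hv
    have hv2 := hv.2
    unfold Avoid at hv2
    push Not at hv2
    obtain ⟨D, hD, hall⟩ := hv2
    obtain ⟨g, hg⟩ := hsurj D hD
    rw [Finset.mem_biUnion]
    refine ⟨g, Finset.mem_univ _, ?_⟩
    rw [Finset.mem_filter]
    refine ⟨Finset.mem_univ _, ?_⟩
    by_contra hcon
    obtain ⟨u, hu1, hu2, hu3⟩ := exists_dz _ _ _ hcon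
    apply hall u
    · intro c hc
      exact (Finset.mem_sdiff.1 (hu1 c hc)).1
    · intro c hc
      rw [← hg]
      exact (Finset.mem_sdiff.1 (hu1 c hc)).2
    · exact hu2
    · exact hu3
  have hone : ∀ g : Fin D0 → Option (Fin n),
      (univ.filter (fun v : Vec n => cut (S \ set' g) v ∈ cutSpan (S \ set' g) h)).card * 2 ^ s0 ≤
        2 ^ (h.length + D0) * 2 ^ n := by
    intro g
    have h1 := card_cut_mem (S \ set' g) h
    rw [Nat.card_eq_fintype_card, Fintype.card_subtype] at h1
    have h2 : s0 ≤ (S \ set' g).card + D0 := by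
      have := Finset.card_le_card_sdiff_add_card (s := S) (t := set' g)
      have := hcardset g
      omega
    calc (univ.filter (fun v : Vec n => cut (S \ set' g) v ∈ cutSpan (S \ set' g) h)).card * 2 ^ s0
        ≤ (univ.filter (fun v : Vec n => cut (S \ set' g) v ∈ cutSpan (S \ set' g) h)).card *
          2 ^ ((S \ set' g).card + D0) := by
          apply Nat.mul_le_mul_left
          exact Nat.pow_le_pow_right (by norm_num) h2
      _ = (univ.filter (fun v : Vec n => cut (S \ set' g) v ∈ cutSpan (S \ set' g) h)).card *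
          2 ^ ((S \ set' g).card) * 2 ^ D0 := by rw [pow_add, mul_assoc]
      _ ≤ (2 ^ h.length * 2 ^ n) * 2 ^ D0 := Nat.mul_le_mul_right _ h1
      _ = 2 ^ (h.length + D0) * 2 ^ n := by rw [pow_add]; ring
  calc (univ.filter (fun v : Vec n => ¬ Avoid S h D0 v)).card * 2 ^ s0
      ≤ (∑ g : Fin D0 → Option (Fin n),
          (univ.filter (fun v : Vec n => cut (S \ set' g) v ∈ cutSpan (S \ set' g) h)).card) *
            2 ^ s0 := by
        apply Nat.mul_le_mul_right
        exact (Finset.card_le_card hsub).trans Finset.card_biUnion_le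
    _ = ∑ g : Fin D0 → Option (Fin n),
          (univ.filter (fun v : Vec n => cut (S \ set' g) v ∈ cutSpan (S \ set' g) h)).card *
            2 ^ s0 := by rw [Finset.sum_mul]
    _ ≤ ∑ _g : Fin D0 → Option (Fin n), 2 ^ (h.length + D0) * 2 ^ n :=
        Finset.sum_le_sum (fun g _ => hone g)
    _ = (n + 1) ^ D0 * 2 ^ (h.length + D0) * 2 ^ n := by
        rw [Finset.sum_const, Finset.card_univ]
        simp only [Fintype.card_fun, Fintype.card_option, Fintype.card_fin, smul_eq_mul]
        ring

open Classical in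
/-- the same after an invertible linear map -/
lemma card_not_avoid_mul (B : (Mat n)ˣ) (S : Finset (Fin n)) (h : List (Vec n)) (D0 s0 : ℕ)
    (hS : s0 ≤ S.card) :
    (univ.filter (fun v : Vec n => ¬ Avoid S (h.map (↑B⁻¹ : Mat n).mulVec) D0
      ((↑B⁻¹ : Mat n).mulVec v))).card * 2 ^ s0 ≤
      (n + 1) ^ D0 * 2 ^ (h.length + D0) * 2 ^ n := by
  have h0 := card_not_avoid S (h.map (↑B⁻¹ : Mat n).mulVec) D0 s0 hS
  rw [List.length_map] at h0
  refine le_trans ?_ h0
  apply Nat.mul_le_mul_right
  apply Finset.card_le_card_of_injOn (fun v => (↑B⁻¹ : Mat n).mulVec v)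
  · intro v hv
    have hv' := (Finset.mem_filter.1 (Finset.mem_coe.1 hv)).2
    exact Finset.mem_coe.2 (Finset.mem_filter.2 ⟨Finset.mem_univ _, hv'⟩)
  · intro v _ v' _ hvv
    have h1 := congrArg (fun z => (B : Mat n).mulVec z) hvv
    simpa [Matrix.mulVec_mulVec] using h1

end Pool.Agent.TH163.AC2
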