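import Pool.Agent.TH163.AC2.Span

/-!
# Random restrictions of a matrix
-/

set_option autoImplicit false

namespace Pool.Agent.TH163.AC2

open Finset H568R2
open Pool.Agent.H699R2.OMV (Vec Mat)

/-! ### products -/

lemma Ex_prod_fun {I A : Type} [Fintype I] [DecidableEq I] [Fintype A] (w : A → ℝ)
    (f : I → A → ℝ) : Ex w (fun ω : I → A => ∏ i, f i (ω i)) = ∏ i, ∑ a, w a * f i a := by
  classical
  unfold Ex
  rw [Finset.prod_univ_sum, Fintype.piFinset_univ]
  apply Finset.sum_congr rfl
  intro ω _
  rw [Finset.prod_mul_distrib]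

lemma sum_resample {I A : Type} [Fintype I] [DecidableEq I] [Fintype A] [Nonempty A]
    (F : (I → A) → ℝ) (i : I) :
    ∑ ω, F ω = ∑ ω : I → A, (∑ a, F (Function.update ω i a)) / Fintype.card A := by
  have hc : (0 : ℝ) < Fintype.card A := by exact_mod_cast Fintype.card_pos
  have h := Ex_resample (I := I) (w := fun _ : A => (1 : ℝ) / Fintype.card A) (by
    rw [Finset.sum_const, Finset.card_univ, nsmul_eq_mul]
    field_simp) F i
  unfold Ex at h
  simp only [Finset.prod_const] at h
  rw [← Finset.mul_sum, ← Finset.mul_sum] at h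
  have h2 : (0 : ℝ) < ((1 : ℝ) / Fintype.card A) ^ (univ : Finset I).card := by positivity
  have h3 := mul_left_cancel₀ h2.ne' h
  rw [h3]
  apply Finset.sum_congr rfl
  intro ω _
  rw [← Finset.mul_sum]
  ring

/-! ### stars in a row -/

/-- the free columns of row `r` -/
def free {n : ℕ} (ρ : Restr (Fin n × Fin n)) (r : Fin n) : Finset (Fin n) :=
  univ.filter (fun c => ρ (r, c) = none)

lemma few_free {n : ℕ} (r : Fin n) {p : ℝ} (h0 : 0 ≤ p) (h1 : p ≤ 1) (s0 : ℕ) :
    Ex (wq p) (fun ρ : Restr (Fin n × Fin n) => if (free ρ r).card < s0 then (1 : ℝ) else 0) ≤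
      2 ^ s0 * (1 - p / 2) ^ n := by
  classical
  have hw := wq_nonneg h0 h1
  have hpt : ∀ ρ : Restr (Fin n × Fin n), (if (free ρ r).card < s0 then (1 : ℝ) else 0) ≤
      2 ^ s0 * ∏ e : Fin n × Fin n, (if e.1 = r ∧ ρ e = none then (1 / 2 : ℝ) else 1) := by
    intro ρ
    have h2 : ∏ e : Fin n × Fin n, (if e.1 = r ∧ ρ e = none then (1 / 2 : ℝ) else 1) =
        (1 / 2) ^ (free ρ r).card := by
      rw [Fintype.prod_prod_type]
      rw [Finset.prod_eq_single r]
      · simp only [true_and]
        unfold free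
        rw [Finset.prod_ite, Finset.prod_const, Finset.prod_const_one, mul_one]
      · intro b _ hb
        apply Finset.prod_eq_one
        intro c _
        rw [if_neg]
        rintro ⟨h, _⟩
        exact hb h
      · intro h
        exact absurd (Finset.mem_univ r) h
    rw [h2]
    split_ifs with h3
    · rw [one_div, inv_pow, ← div_eq_mul_inv, le_div_iff₀ (by positivity), one_mul]
      exact pow_le_pow_right₀ (by norm_num) h3.le
    · positivity
  refine (Ex_mono hw hpt).trans ?_
  rw [Ex_smul]
  apply mul_le_mul_of_nonneg_left _ (by positivity)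
  have h4 := Ex_prod_fun (I := Fin n × Fin n) (wq p) (fun e a =>
    if e.1 = r ∧ a = none then (1 / 2 : ℝ) else 1)
  refine (le_of_eq h4).trans ?_
  rw [Fintype.prod_prod_type, Finset.prod_eq_single r]
  · have h5 : ∀ c : Fin n, ∑ a : Option Bool, wq p a *
        (if ((r, c) : Fin n × Fin n).1 = r ∧ a = none then (1 / 2 : ℝ) else 1) = 1 - p / 2 := by
      intro c
      simp only [Fintype.sum_option, Fintype.sum_bool, true_and, if_true]
      simp [wq]
      ring
    rw [Finset.prod_congr rfl (fun c _ => h5 c), Finset.prod_const, Finset.card_univ,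
      Fintype.card_fin]
  · intro b _ hb
    apply Finset.prod_eq_one
    intro c _
    have h6 : ∀ a : Option Bool, (if ((b, c) : Fin n × Fin n).1 = r ∧ a = none then (1 / 2 : ℝ)
        else 1) = 1 := by
      intro a
      rw [if_neg]
      rintro ⟨h, _⟩
      exact hb h
    simp only [h6, mul_one]
    exact wq_sum p
  · intro h
    exact absurd (Finset.mem_univ r) h

/-! ### uniform bits -/

/-- the average over all assignments -/
noncomputable def unif {I : Type} [Fintype I] [DecidableEq I] (F : (I → Bool) → ℝ) : ℝ :=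
  (∑ x, F x) / (Fintype.card (I → Bool) : ℝ)

lemma unif_eq {I : Type} [Fintype I] [DecidableEq I] (F : (I → Bool) → ℝ) :
    unif F = Ex (fun _ : Bool => (1 / 2 : ℝ)) F := by
  unfold unif Ex
  simp only [Finset.prod_const]
  rw [← Finset.mul_sum, Fintype.card_fun, Fintype.card_bool, Finset.card_univ]
  push_cast
  rw [one_div, inv_pow, div_eq_inv_mul]

lemma unif_restr {I : Type} [Fintype I] [DecidableEq I] (p : ℝ) (F : (I → Bool) → ℝ) :
    unif F = Ex (wq p) (fun ρ : Restr I => unif (fun x => F (ov ρ x))) := by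
  rw [unif_eq]
  simp only [unif_eq]
  have h := Ex_prod (I := I) (wq p) (fun _ : Bool => (1 / 2 : ℝ))
    (fun ω => F (fun i => (ω i).1.getD (ω i).2))
  have h2 := Ex_push (I := I) (fun c : Option Bool × Bool => c.1.getD c.2)
    (fun c => wq p c.1 * (1 / 2 : ℝ)) (fun _ : Bool => (1 / 2 : ℝ)) (by
      intro b
      rw [Finset.sum_filter, Fintype.sum_prod_type]
      simp only [Fintype.sum_option, Fintype.sum_bool]
      rcases b with _ | _ <;> simp [wq] <;> ring) F
  rw [← h2, h]
  rfl

lemma unif_mono {I : Type} [Fintype I] [DecidableEq I] {F G : (I → Bool) → ℝ}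
    (h : ∀ x, F x ≤ G x) : unif F ≤ unif G := by
  unfold unif
  apply div_le_div_of_nonneg_right _ (by positivity)
  exact Finset.sum_le_sum (fun x _ => h x)

lemma unif_smul {I : Type} [Fintype I] [DecidableEq I] (c : ℝ) (F : (I → Bool) → ℝ) :
    unif (fun x => c * F x) = c * unif F := by
  unfold unif
  rw [← Finset.mul_sum, mul_div_assoc]

lemma unif_sum {I κ : Type} [Fintype I] [DecidableEq I] (s : Finset κ) (F : κ → (I → Bool) → ℝ) :
    unif (fun x => ∑ k ∈ s, F k x) = ∑ k ∈ s, unif (F k) := by
  unfold unif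
  rw [Finset.sum_comm, Finset.sum_div]

lemma unif_const {I : Type} [Fintype I] [DecidableEq I] (c : ℝ) :
    unif (fun _ : I → Bool => c) = c := by
  unfold unif
  rw [Finset.sum_const, Finset.card_univ, nsmul_eq_mul]
  have : (0 : ℝ) < Fintype.card (I → Bool) := by exact_mod_cast Fintype.card_pos
  field_simp

lemma unif_nonneg {I : Type} [Fintype I] [DecidableEq I] {F : (I → Bool) → ℝ}
    (h : ∀ x, 0 ≤ F x) : 0 ≤ unif F := by
  unfold unif
  exact div_nonneg (Finset.sum_nonneg (fun x _ => h x)) (by positivity)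

end Pool.Agent.TH163.AC2
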